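import Mathlib

/-!
# Dickson polynomials modulo a prime, and a norm bound
-/

set_option autoImplicit false

open Polynomial

namespace Pool.Agent.W738.SAL

/-- `D_{p^i} ≡ X^{p^i}` mod `p` -/
lemma dickson_pow_zmod (p : ℕ) [Fact p.Prime] (i : ℕ) :
    dickson 1 (1 : ZMod p) (p ^ i) = X ^ (p ^ i) := by
  induction i with
  | zero => simp
  | succ i ih =>
    rw [pow_succ, dickson_one_one_mul, ih, dickson_one_one_zmod_p, X_pow_comp, ← pow_mul, mul_comm]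

lemma dickson_dvd (p : ℕ) [Fact p.Prime] (i : ℕ) :
    ∃ Q : ℤ[X], dickson 1 (1 : ℤ) (p ^ i) = X ^ (p ^ i) + C (p : ℤ) * Q := by
  have h1 : (dickson 1 (1 : ℤ) (p ^ i) - X ^ (p ^ i)).map (Int.castRingHom (ZMod p)) = 0 := by
    rw [Polynomial.map_sub, map_dickson, Polynomial.map_pow, map_X]
    simp only [map_one]
    rw [dickson_pow_zmod, sub_self]
  have h2 : C (p : ℤ) ∣ dickson 1 (1 : ℤ) (p ^ i) - X ^ (p ^ i) := by
    rw [C_dvd_iff_dvd_coeff]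
    intro n
    have h3 := congrArg (fun f => f.coeff n) h1
    simp only [coeff_map, coeff_zero] at h3
    exact (ZMod.intCast_zmod_eq_zero_iff_dvd _ p).1 h3
  obtain ⟨Q, hQ⟩ := h2
  exact ⟨Q, by rw [← hQ]; ring⟩

/-- evaluation at an integral element -/
lemma dickson_aeval {F : Type*} [Field F] [Algebra ℚ F] (p : ℕ) [Fact p.Prime] (i : ℕ) {x : F}
    (hx : IsIntegral ℤ x) :
    ∃ y : F, IsIntegral ℤ y ∧ aeval x (dickson 1 (1 : ℤ) (p ^ i)) = x ^ (p ^ i) + p * y := by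
  obtain ⟨Q, hQ⟩ := dickson_dvd p i
  refine ⟨aeval x Q, ?_, ?_⟩
  · exact IsIntegral.of_mem_of_fg (Algebra.adjoin ℤ {x}) hx.fg_adjoin_singleton _
      (aeval_mem_adjoin_singleton _ _)
  · rw [hQ]
    simp

/-- the norm of a nonzero integral element is at least one -/
lemma one_le_prod {F : Type*} [Field F] [Algebra ℚ F] [FiniteDimensional ℚ F] {y : F}
    (hy : IsIntegral ℤ y) (h0 : y ≠ 0) : 1 ≤ ∏ φ : F →ₐ[ℚ] ℂ, ‖φ y‖ := by
  rw [← norm_prod, ← Algebra.norm_eq_prod_embeddings]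
  have h1 : IsIntegral ℤ (Algebra.norm ℚ y) := Algebra.isIntegral_norm ℚ hy
  obtain ⟨m, hm⟩ := IsIntegrallyClosed.isIntegral_iff.1 h1
  have h2 : Algebra.norm ℚ y ≠ 0 := Algebra.norm_ne_zero_iff.2 h0
  rw [← hm] at h2 ⊢
  have h3 : m ≠ 0 := by
    rintro rfl
    simp at h2
  have h4 : (1:ℝ) ≤ |(m:ℝ)| := by exact_mod_cast Int.one_le_abs h3
  simpa using h4

lemma pow_le_prod {F : Type*} [Field F] [Algebra ℚ F] [FiniteDimensional ℚ F] {y z : F}
    (hy : IsIntegral ℤ y) {p : ℕ} (hz : z = p * y) (h0 : z ≠ 0) :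
    (p : ℝ) ^ (Module.finrank ℚ F) ≤ ∏ φ : F →ₐ[ℚ] ℂ, ‖φ z‖ := by
  have hy0 : y ≠ 0 := by
    rintro rfl
    simp at hz
    exact h0 hz
  have h1 := one_le_prod hy hy0
  have h2 : ∏ φ : F →ₐ[ℚ] ℂ, ‖φ z‖ = (p : ℝ) ^ (Module.finrank ℚ F) * ∏ φ : F →ₐ[ℚ] ℂ, ‖φ y‖ := by
    rw [hz]
    simp only [map_mul, map_natCast, norm_mul, Finset.prod_mul_distrib, Complex.norm_natCast,
      Finset.prod_const, Finset.card_univ]
    rw [AlgHom.card ℚ F ℂ]
  rw [h2]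
  exact le_mul_of_one_le_right (by positivity) h1

end Pool.Agent.W738.SAL
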