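import Mathlib
import Pool.Agent.W738.SAL.A

/-!
# Embeddings of the trace field
-/

set_option autoImplicit false

open Polynomial

namespace Pool.Agent.W738.SAL

/-- the trace field `ℚ(β + β⁻¹)` -/
noncomputable abbrev TF (β : ℝ) : IntermediateField ℚ ℝ := IntermediateField.adjoin ℚ {β + β⁻¹}

/-- its generator -/
noncomputable abbrev tt (β : ℝ) : TF β := IntermediateField.AdjoinSimple.gen ℚ (β + β⁻¹)

lemma tt_coe (β : ℝ) : ((tt β : TF β) : ℝ) = β + β⁻¹ := rfl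

lemma exists_root {β : ℝ} (hint : IsIntegral ℤ β)
    (hrec : aeval β⁻¹ (minpoly ℤ β) = 0) (hβ : β ≠ 0) (φ : TF β →ₐ[ℚ] ℂ) :
    ∃ w : ℂ, w ≠ 0 ∧ aeval w (minpoly ℤ β) = 0 ∧ aeval w⁻¹ (minpoly ℤ β) = 0 ∧
      φ (tt β) = w + w⁻¹ := by
  have hintQ : IsIntegral (TF β) β := hint.tower_top
  have halg : Algebra.IsAlgebraic (TF β) (IntermediateField.adjoin (TF β) {β}) :=
    IntermediateField.isAlgebraic_adjoin_simple hintQ
  obtain ⟨ψ, hψ⟩ := IsAlgClosed.surjective_domRestrict_of_isAlgebraic (K := ℚ) (L := TF β) (M := ℂ)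
    (E := IntermediateField.adjoin (TF β) {β}) φ
  set b : IntermediateField.adjoin (TF β) {β} := IntermediateField.AdjoinSimple.gen (TF β) β with hb
  have hbc : (b : ℝ) = β := rfl
  have hb0 : b ≠ 0 := by
    intro h
    apply hβ
    rw [← hbc, h]
    rfl
  have key : ∀ c : IntermediateField.adjoin (TF β) {β}, aeval (c : ℝ) (minpoly ℤ β) = 0 →
      aeval (ψ c) (minpoly ℤ β) = 0 := by
    intro c hc
    have h1 : aeval c (minpoly ℤ β) = 0 := by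
      have h2 : ((aeval c (minpoly ℤ β) : IntermediateField.adjoin (TF β) {β}) : ℝ)
          = aeval (c : ℝ) (minpoly ℤ β) := by
        exact (aeval_algebraMap_apply ℝ c (minpoly ℤ β)).symm
      rw [hc] at h2
      exact_mod_cast h2
    have h3 := aeval_algHom_apply (ψ.restrictScalars ℤ) c (minpoly ℤ β)
    rw [h1, map_zero] at h3
    exact h3
  refine ⟨ψ b, ?_, key b ?_, ?_, ?_⟩
  · exact (map_ne_zero ψ).2 hb0
  · rw [hbc]; exact minpoly.aeval _ _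
  · rw [← map_inv₀]
    apply key
    exact hrec
  · rw [← hψ]
    have h4 : (algebraMap (TF β) (IntermediateField.adjoin (TF β) {β})) (tt β) = b + b⁻¹ := by
      apply Subtype.ext
      rfl
    change ψ (algebraMap (TF β) (IntermediateField.adjoin (TF β) {β}) (tt β)) = _
    rw [h4, map_add, map_inv₀]

/-- the given embedding in `ℂ` -/
noncomputable def φ₀ (β : ℝ) : TF β →ₐ[ℚ] ℂ :=
  (Complex.ofRealAm.restrictScalars ℚ).comp (TF β).val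

lemma φ₀_apply (β : ℝ) (x : TF β) : φ₀ β x = ((x : ℝ) : ℂ) := rfl

lemma φ₀_tt (β : ℝ) : φ₀ β (tt β) = (β : ℂ) + (β : ℂ)⁻¹ := by
  rw [φ₀_apply, tt_coe]
  push_cast
  rfl

lemma hom_ext {β : ℝ} {A : Type*} [Field A] [Algebra ℚ A] {φ ψ : TF β →ₐ[ℚ] A}
    (h : φ (tt β) = ψ (tt β)) : φ = ψ := by
  refine IntermediateField.adjoin_algHom_ext ℚ ?_
  intro x hx
  rw [Set.mem_singleton_iff] at hx
  subst hx
  exact h

/-- the embeddings other than the given one send `t` to `w + w⁻¹` with `|w| = 1` -/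
lemma other {β : ℝ} (hβ : 1 < β) (hint : IsIntegral ℤ β) (hrec : aeval β⁻¹ (minpoly ℤ β) = 0)
    (hone : ∀ z : ℂ, aeval z (minpoly ℤ β) = 0 → z ≠ (β : ℂ) → ‖z‖ ≤ 1)
    {φ : TF β →ₐ[ℚ] ℂ} (hφ : φ ≠ φ₀ β) :
    ∃ w : ℂ, w ≠ 0 ∧ ‖w‖ = 1 ∧ φ (tt β) = w + w⁻¹ := by
  obtain ⟨w, hw0, hw, hw', h⟩ := exists_root hint hrec (by linarith : β ≠ 0) φ
  have h1 : w ≠ (β : ℂ) := by
    rintro rfl
    exact hφ (hom_ext (by rw [h, φ₀_tt]))
  have h2 : w⁻¹ ≠ (β : ℂ) := by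
    intro h3
    apply hφ
    apply hom_ext
    rw [h, φ₀_tt, ← h3, inv_inv, add_comm]
  refine ⟨w, hw0, le_antisymm (hone w hw h1) ?_, h⟩
  have h3 := hone _ hw' h2
  rw [norm_inv] at h3
  have h4 : 0 < ‖w‖ := norm_pos_iff.2 hw0
  rw [inv_le_one₀ h4] at h3
  exact h3

/-- `φ` applied to `D_m(x)` -/
lemma φ_dickson {F : Type*} [Field F] [Algebra ℚ F] (φ : F →ₐ[ℚ] ℂ) (x : F) (m : ℕ) {w : ℂ}
    (hw : w ≠ 0) (h : φ x = w + w⁻¹) : φ (aeval x (dickson 1 (1 : ℤ) m)) = w ^ m + (w⁻¹) ^ m := by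
  have h1 := aeval_algHom_apply (φ.restrictScalars ℤ) x (dickson 1 (1 : ℤ) m)
  have h2 : (φ.restrictScalars ℤ) x = w + w⁻¹ := h
  rw [h2] at h1
  have h3 : φ (aeval x (dickson 1 (1 : ℤ) m)) = aeval (w + w⁻¹) (dickson 1 (1 : ℤ) m) := h1.symm
  rw [h3, ← dickson_one_one_eval_add_inv w w⁻¹ (mul_inv_cancel₀ hw) m, aeval_def, ← eval_map,
    map_dickson]
  simp

/-- `U m = β^m + β^{-m}` -/
noncomputable def U (β : ℝ) (m : ℕ) : ℝ := β ^ m + (β⁻¹) ^ m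

lemma U_two_le {β : ℝ} (hβ : 0 < β) (m : ℕ) : 2 ≤ U β m := by
  unfold U
  have h : 0 < β ^ m := pow_pos hβ m
  rw [inv_pow]
  have h1 : β ^ m + (β ^ m)⁻¹ - 2 = (β ^ m - 1) ^ 2 / β ^ m := by
    field_simp
    ring
  have h2 : 0 ≤ (β ^ m - 1) ^ 2 / β ^ m := by positivity
  linarith

lemma U_two_lt {β : ℝ} (hβ : 1 < β) {m : ℕ} (hm : 1 ≤ m) : 2 < U β m := by
  unfold U
  have h : 1 < β ^ m := one_lt_pow₀ hβ (by omega)
  rw [inv_pow]
  have h1 : β ^ m + (β ^ m)⁻¹ - 2 = (β ^ m - 1) ^ 2 / β ^ m := by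
    field_simp
    ring
  have h2 : 0 < (β ^ m - 1) ^ 2 / β ^ m := by
    have : 0 < β ^ m - 1 := by linarith
    positivity
  linarith

lemma U_lt {β : ℝ} (hβ : 1 < β) {m n : ℕ} (h : m < n) : U β m < U β n := by
  unfold U
  have hm : 1 ≤ β ^ m := one_le_pow₀ hβ.le
  have hmn : β ^ m < β ^ n := pow_lt_pow_right₀ hβ h
  rw [inv_pow, inv_pow]
  have h1 : β ^ n + (β ^ n)⁻¹ - (β ^ m + (β ^ m)⁻¹)
      = (β ^ n - β ^ m) * (β ^ n * β ^ m - 1) / (β ^ n * β ^ m) := by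
    field_simp
    ring
  have h3 : 1 < β ^ n * β ^ m := by nlinarith
  have h2 : 0 < (β ^ n - β ^ m) * (β ^ n * β ^ m - 1) / (β ^ n * β ^ m) := by
    have : 0 < β ^ n - β ^ m := by linarith
    have : 0 < β ^ n * β ^ m - 1 := by linarith
    positivity
  linarith

lemma norm_φ_other {β : ℝ} (hβ : 1 < β) (hint : IsIntegral ℤ β)
    (hrec : aeval β⁻¹ (minpoly ℤ β) = 0)
    (hone : ∀ z : ℂ, aeval z (minpoly ℤ β) = 0 → z ≠ (β : ℂ) → ‖z‖ ≤ 1)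
    {φ : TF β →ₐ[ℚ] ℂ} (hφ : φ ≠ φ₀ β) (m : ℕ) :
    ‖φ (aeval (tt β) (dickson 1 (1 : ℤ) m))‖ ≤ 2 := by
  obtain ⟨w, hw0, hw, h⟩ := other hβ hint hrec hone hφ
  rw [φ_dickson φ _ m hw0 h]
  refine (norm_add_le _ _).trans ?_
  rw [norm_pow, norm_pow, norm_inv, hw]
  norm_num

lemma φ₀_dickson {β : ℝ} (hβ : β ≠ 0) (m : ℕ) :
    φ₀ β (aeval (tt β) (dickson 1 (1 : ℤ) m)) = (U β m : ℂ) := by
  rw [φ_dickson (φ₀ β) _ m (w := (β : ℂ)) (by exact_mod_cast hβ) (φ₀_tt β), U]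
  push_cast
  rfl

end Pool.Agent.W738.SAL
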