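import Mathlib
import Pool.Agent.W738.SAL.B

/-!
# The congruence criterion
-/

set_option autoImplicit false

open Polynomial

namespace Pool.Agent.W738.SAL

lemma prod_ite_le {ι : Type*} [Fintype ι] [DecidableEq ι] (i₀ : ι) (A : ℝ) :
    ∏ i : ι, (if i = i₀ then A else 4) = A / 4 * 4 ^ Fintype.card ι := by
  have h1 : ∀ i : ι, (if i = i₀ then A else 4) = (if i = i₀ then A / 4 else 1) * 4 := by
    intro i
    split_ifs <;> ring
  rw [Finset.prod_congr rfl (fun i _ => h1 i), Finset.prod_mul_distrib, Finset.prod_ite_eq']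
  simp

/-- the criterion, in terms of all conjugates having modulus at most one -/
theorem criterion {β : ℝ} (hβ : 1 < β) (hint : IsIntegral ℤ β)
    (hrec : aeval β⁻¹ (minpoly ℤ β) = 0)
    (hone : ∀ z : ℂ, aeval z (minpoly ℤ β) = 0 → z ≠ (β : ℂ) → ‖z‖ ≤ 1)
    {p : ℕ} [Fact p.Prime] {i j : ℕ} {σ : TF β ≃ₐ[ℚ] TF β}
    (hij : j < i ∨ (j = i ∧ σ ≠ 1))
    {y : TF β} (hy : IsIntegral ℤ y)
    (hσ : tt β ^ (p ^ i) - (σ (tt β)) ^ (p ^ j) = p * y) :
    16 * ((p : ℝ) / 4) ^ (Module.finrank ℚ (TF β)) ≤ (U β (p ^ i) + 2) * (U β (p ^ j) + 2) := by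
  classical
  have hp : p.Prime := Fact.out
  have hβ0 : β ≠ 0 := by linarith
  -- integrality of t
  have hrecint : IsIntegral ℤ β⁻¹ := ⟨minpoly ℤ β, minpoly.monic hint, by
    rw [← aeval_def]; exact hrec⟩
  have htR : IsIntegral ℤ (β + β⁻¹) := hint.add hrecint
  have ht : IsIntegral ℤ (tt β) := by
    have h1 : IsIntegral ℤ ((TF β).val (tt β)) := htR
    exact (isIntegral_algHom_iff ((TF β).val.restrictScalars ℤ) (TF β).val.injective).1 h1
  have hσt : IsIntegral ℤ (σ (tt β)) := ht.map (σ.toAlgHom.restrictScalars ℤ)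
  have : FiniteDimensional ℚ (TF β) :=
    IntermediateField.adjoin.finiteDimensional htR.tower_top
  -- the element z
  obtain ⟨y1, hy1, h1⟩ := dickson_aeval p i ht
  obtain ⟨y2, hy2, h2⟩ := dickson_aeval p j hσt
  set z : TF β := aeval (tt β) (dickson 1 (1 : ℤ) (p ^ i)) -
    aeval (σ (tt β)) (dickson 1 (1 : ℤ) (p ^ j)) with hz
  have hz1 : z = p * (y1 + y - y2) := by
    rw [hz, h1, h2]
    have : tt β ^ (p ^ i) = (σ (tt β)) ^ (p ^ j) + p * y := by rw [← hσ]; ring
    rw [this]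
    ring
  have hyy : IsIntegral ℤ (y1 + y - y2) := (hy1.add hy).sub hy2
  -- the conjugates of `D(σ t)`
  have hcomp : ∀ φ : TF β →ₐ[ℚ] ℂ, φ (aeval (σ (tt β)) (dickson 1 (1 : ℤ) (p ^ j))) =
      (φ.comp σ.toAlgHom) (aeval (tt β) (dickson 1 (1 : ℤ) (p ^ j))) := by
    intro φ
    have h3 := aeval_algHom_apply (σ.toAlgHom.restrictScalars ℤ) (tt β)
      (dickson 1 (1 : ℤ) (p ^ j))
    have h4 : (σ.toAlgHom.restrictScalars ℤ) (tt β) = σ (tt β) := rfl
    rw [h4] at h3
    rw [h3]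
    rfl
  have hpi : 1 ≤ p ^ i := Nat.one_le_pow _ _ hp.pos
  have hpj : 1 ≤ p ^ j := Nat.one_le_pow _ _ hp.pos
  -- z is not zero
  have hz0 : z ≠ 0 := by
    intro h0
    have h3 : φ₀ β z = 0 := by rw [h0, map_zero]
    rw [hz, map_sub, φ₀_dickson hβ0, hcomp, sub_eq_zero] at h3
    by_cases h4 : (φ₀ β).comp σ.toAlgHom = φ₀ β
    · rw [h4, φ₀_dickson hβ0] at h3
      have h5 : U β (p ^ i) = U β (p ^ j) := by exact_mod_cast h3
      rcases hij with h6 | ⟨h6, h7⟩
      · have := U_lt hβ (Nat.pow_lt_pow_right hp.one_lt h6)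
        linarith
      · apply h7
        ext x
        have h8 := AlgHom.congr_fun h4 x
        have h9 : ((σ x : TF β) : ℝ) = (x : ℝ) := by
          have : (((σ x : TF β) : ℝ) : ℂ) = ((x : ℝ) : ℂ) := h8
          exact_mod_cast this
        exact h9
    · have h5 := norm_φ_other hβ hint hrec hone h4 (p ^ j)
      rw [← h3, Complex.norm_real, Real.norm_eq_abs] at h5
      have h6 := U_two_lt hβ hpi
      have h7 := le_abs_self (U β (p ^ i))
      linarith
  have hlow := pow_le_prod (p := p) hyy hz1 hz0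
  -- upper bound for the product
  set ψ₀ : TF β →ₐ[ℚ] ℂ := (φ₀ β).comp σ.symm.toAlgHom with hψ
  have hup : ∀ φ : TF β →ₐ[ℚ] ℂ, ‖φ z‖ ≤
      ((if φ = φ₀ β then U β (p ^ i) + 2 else 4) * (if φ = ψ₀ then U β (p ^ j) + 2 else 4)) *
        (1 / 4) := by
    intro φ
    have h3 : ‖φ (aeval (tt β) (dickson 1 (1 : ℤ) (p ^ i)))‖ ≤
        (if φ = φ₀ β then U β (p ^ i) + 2 else 4) - 2 := by
      split_ifs with h
      · rw [h, φ₀_dickson hβ0, Complex.norm_real, Real.norm_eq_abs,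
          abs_of_pos (by linarith [U_two_lt hβ hpi])]
        linarith
      · have := norm_φ_other hβ hint hrec hone h (p ^ i)
        linarith
    have h4 : ‖φ (aeval (σ (tt β)) (dickson 1 (1 : ℤ) (p ^ j)))‖ ≤
        (if φ = ψ₀ then U β (p ^ j) + 2 else 4) - 2 := by
      rw [hcomp]
      split_ifs with h
      · have h5 : φ.comp σ.toAlgHom = φ₀ β := by
          rw [h, hψ]
          ext x
          change φ₀ β (σ.symm (σ x)) = φ₀ β x
          rw [AlgEquiv.symm_apply_apply]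
        rw [h5, φ₀_dickson hβ0, Complex.norm_real, Real.norm_eq_abs,
          abs_of_pos (by linarith [U_two_lt hβ hpj])]
        linarith
      · have h5 : φ.comp σ.toAlgHom ≠ φ₀ β := by
          intro h6
          apply h
          rw [hψ, ← h6]
          ext x
          change φ x = φ (σ (σ.symm x))
          rw [AlgEquiv.apply_symm_apply]
        have := norm_φ_other hβ hint hrec hone h5 (p ^ j)
        linarith
    have h5 : ‖φ z‖ ≤ ‖φ (aeval (tt β) (dickson 1 (1 : ℤ) (p ^ i)))‖ +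
        ‖φ (aeval (σ (tt β)) (dickson 1 (1 : ℤ) (p ^ j)))‖ := by
      rw [hz, map_sub]
      exact norm_sub_le _ _
    have h6 : 4 ≤ (if φ = φ₀ β then U β (p ^ i) + 2 else 4) := by
      split_ifs
      · linarith [U_two_lt hβ hpi]
      · exact le_refl _
    have h7 : 4 ≤ (if φ = ψ₀ then U β (p ^ j) + 2 else 4) := by
      split_ifs
      · linarith [U_two_lt hβ hpj]
      · exact le_refl _
    nlinarith [mul_nonneg (sub_nonneg.2 h6) (sub_nonneg.2 h7)]
  have hprod := Finset.prod_le_prod (s := Finset.univ) (fun φ _ => norm_nonneg (φ z))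
    (fun φ _ => hup φ)
  rw [Finset.prod_mul_distrib, Finset.prod_mul_distrib, prod_ite_le, prod_ite_le,
    Finset.prod_const, Finset.card_univ, AlgHom.card ℚ (TF β) ℂ] at hprod
  set n := Module.finrank ℚ (TF β) with hn
  have h8 : (U β (p ^ i) + 2) / 4 * 4 ^ n * ((U β (p ^ j) + 2) / 4 * 4 ^ n) * (1 / 4) ^ n
      = (U β (p ^ i) + 2) * (U β (p ^ j) + 2) / 16 * 4 ^ n := by
    have h9 : (4:ℝ) ^ n * (1 / 4) ^ n = 1 := by rw [← mul_pow]; norm_num
    calc (U β (p ^ i) + 2) / 4 * 4 ^ n * ((U β (p ^ j) + 2) / 4 * 4 ^ n) * (1 / 4) ^ n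
        = (U β (p ^ i) + 2) * (U β (p ^ j) + 2) / 16 * 4 ^ n * (4 ^ n * (1 / 4) ^ n) := by ring
      _ = _ := by rw [h9, mul_one]
  rw [h8] at hprod
  have h10 := hlow.trans hprod
  rw [div_pow]
  have h11 : (0:ℝ) < 4 ^ n := by positivity
  rw [← mul_div_assoc, div_le_iff₀ h11]
  linarith

/-- the degree of the trace field is at least two when `β + β⁻¹ < 3` -/
lemma two_le_finrank {β : ℝ} (hβ : 1 < β) (hint : IsIntegral ℤ β)
    (hrec : aeval β⁻¹ (minpoly ℤ β) = 0) (h3 : β + β⁻¹ < 3) :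
    2 ≤ Module.finrank ℚ (TF β) := by
  have hrecint : IsIntegral ℤ β⁻¹ := ⟨minpoly ℤ β, minpoly.monic hint, by
    rw [← aeval_def]; exact hrec⟩
  have htR : IsIntegral ℤ (β + β⁻¹) := hint.add hrecint
  have : FiniteDimensional ℚ (TF β) :=
    IntermediateField.adjoin.finiteDimensional htR.tower_top
  have hpos : 0 < Module.finrank ℚ (TF β) := Module.finrank_pos
  by_contra hcon
  have h1 : Module.finrank ℚ (TF β) = 1 := by omega
  have h2 : β + β⁻¹ ∈ (⊥ : IntermediateField ℚ ℝ) := by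
    rw [← IntermediateField.finrank_eq_one_iff.1 h1]
    exact IntermediateField.mem_adjoin_simple_self ℚ _
  rw [IntermediateField.mem_bot] at h2
  obtain ⟨q, hq⟩ := h2
  have h4 : IsIntegral ℤ q := by
    rw [← hq] at htR
    exact (isIntegral_algebraMap_iff (algebraMap ℚ ℝ).injective).1 htR
  obtain ⟨m, hm⟩ := IsIntegrallyClosed.isIntegral_iff.1 h4
  have h5 : β + β⁻¹ = (m : ℝ) := by
    rw [← hq, ← hm]
    simp
  have h6 : 2 < β + β⁻¹ := by
    have := U_two_lt hβ (m := 1) le_rfl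
    simpa [U] using this
  rw [h5] at h3 h6
  have h7 : (2:ℤ) < m := by exact_mod_cast h6
  have h8 : m < (3:ℤ) := by exact_mod_cast h3
  omega

end Pool.Agent.W738.SAL
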