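import Mathlib

/-!
# Frobenius elements in abelian extensions
-/

set_option autoImplicit false

open Polynomial NumberField

namespace Pool.Agent.W738.SAL

/-- a common Frobenius element for all primes above an inert prime -/
theorem frob_rad {F L : Type*} [Field F] [NumberField F] [Field L] [NumberField L] [Algebra F L]
    [IsGalois F L] (hcomm : ∀ σ τ : L ≃ₐ[F] L, σ * τ = τ * σ) (p : ℕ) [Fact p.Prime]
    (hF : (Ideal.span {(p : 𝓞 F)}).IsPrime) :
    ∃ σ : L ≃ₐ[F] L, ∀ x : 𝓞 L,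
      x ^ (p ^ Module.finrank ℚ F) - σ • x ∈ (Ideal.span {(p : 𝓞 L)}).radical := by
  classical
  have hp : p.Prime := Fact.out
  have hp0 : (p : 𝓞 F) ≠ 0 := by exact_mod_cast hp.ne_zero
  have hpL : (p : 𝓞 L) ≠ 0 := by exact_mod_cast hp.ne_zero
  have hFbot : Ideal.span {(p : 𝓞 F)} ≠ ⊥ := by
    rw [Ne, Ideal.span_singleton_eq_bot]; exact hp0
  have hFmax : (Ideal.span {(p : 𝓞 F)}).IsMaximal := hF.isMaximal hFbot
  -- cardinality of the residue field
  have hcard : Nat.card (𝓞 F ⧸ Ideal.span {(p : 𝓞 F)}) = p ^ Module.finrank ℚ F := by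
    have h1 := Ideal.absNorm_span_natCast (S := 𝓞 F) p
    rw [RingOfIntegers.rank] at h1
    rw [← h1, Ideal.absNorm_apply, Submodule.cardQuot_apply]
  -- a common Frobenius
  obtain ⟨Q₀⟩ : Nonempty (Ideal.primesOver (Ideal.span {(p : 𝓞 F)}) (𝓞 L)) := inferInstance
  have hfin : ∀ Q : Ideal.primesOver (Ideal.span {(p : 𝓞 F)}) (𝓞 L), Finite (𝓞 L ⧸ Q.1) := by
    intro Q
    have h1 : (p : 𝓞 L) ∈ Q.1 := by
      have h2 := Q.2.2.over
      have h3 : (p : 𝓞 F) ∈ Q.1.under (𝓞 F) := by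
        rw [← h2]; exact Ideal.subset_span rfl
      simpa [Ideal.under_def, Ideal.mem_comap] using h3
    apply Ideal.finiteQuotientOfFreeOfNeBot
    intro h4
    rw [h4] at h1
    exact hpL (by simpa using h1)
  obtain ⟨s, hs1, hs2⟩ := IsArithFrobAt.exists_primesOver_isConj (R := 𝓞 F) (𝓞 L) (L ≃ₐ[F] L)
    (Ideal.span {(p : 𝓞 F)}) ⟨Q₀, hfin Q₀⟩
  have hs : ∀ Q, s Q = s Q₀ := by
    intro Q
    obtain ⟨c, hc⟩ := isConj_iff.1 (hs2 Q Q₀)
    rw [← hc, hcomm c, mul_assoc, mul_inv_cancel, mul_one]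
  refine ⟨s Q₀, fun x => ?_⟩
  rw [Ideal.radical_eq_sInf, Ideal.mem_sInf]
  rintro J ⟨hJ1, hJ2⟩
  have hJp : (p : 𝓞 L) ∈ J := hJ1 (Ideal.subset_span rfl)
  have hunder : Ideal.span {(p : 𝓞 F)} = J.under (𝓞 F) := by
    apply hFmax.eq_of_le
    · have := hJ2
      exact (Ideal.IsPrime.under (𝓞 F) J).ne_top
    · rw [Ideal.span_singleton_le_iff_mem, Ideal.under_def, Ideal.mem_comap]
      simpa using hJp
  have h1 := hs1 ⟨J, hJ2, ⟨hunder⟩⟩ x
  rw [hs] at h1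
  have h2 : Nat.card (𝓞 F ⧸ J.under (𝓞 F)) = p ^ Module.finrank ℚ F := by
    rw [← hunder]; exact hcard
  have h3 : s Q₀ • x - x ^ (p ^ Module.finrank ℚ F) ∈ J := by
    rw [← h2]; exact h1
  rw [← neg_sub]
  exact J.neg_mem h3

/-- powers of a congruence -/
lemma pow_congr {R : Type*} [CommRing R] (p : ℕ) [Fact p.Prime] (k : ℕ) (a b : R)
    (hk : (Ideal.span {(p : R)}).radical ^ (p ^ k) ≤ Ideal.span {(p : R)})
    (h : a - b ∈ (Ideal.span {(p : R)}).radical) :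
    (p : R) ∣ a ^ (p ^ k) - b ^ (p ^ k) := by
  have hp : p.Prime := Fact.out
  have h1 : (a - b) ^ (p ^ k) ∈ Ideal.span {(p : R)} := hk (Ideal.pow_mem_pow h _)
  rw [Ideal.mem_span_singleton] at h1
  have h2 : (p : R) ∣ (a - b) ^ (p ^ k) - (a ^ (p ^ k) - b ^ (p ^ k)) := by
    rcases subsingleton_or_nontrivial (R ⧸ Ideal.span {(p : R)}) with h3 | h3
    · rw [← Ideal.mem_span_singleton]
      rw [Ideal.Quotient.subsingleton_iff] at h3
      rw [h3]
      trivial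
    · have : CharP (R ⧸ Ideal.span {(p : R)}) p := by
        have h4 : (p : R ⧸ Ideal.span {(p : R)}) = 0 := by
          rw [← map_natCast (Ideal.Quotient.mk (Ideal.span {(p : R)})),
            Ideal.Quotient.eq_zero_iff_mem]
          exact Ideal.subset_span rfl
        exact (CharP.charP_iff_prime_eq_zero hp).2 h4
      rw [← Ideal.mem_span_singleton, ← Ideal.Quotient.eq_zero_iff_mem, map_sub, map_sub, map_pow,
        map_pow, map_pow, map_sub, sub_pow_char_pow, sub_self]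
  have h3 := dvd_sub h1 h2
  simpa using h3

theorem frob {F L : Type*} [Field F] [NumberField F] [Field L] [NumberField L] [Algebra F L]
    [IsGalois F L] (hcomm : ∀ σ τ : L ≃ₐ[F] L, σ * τ = τ * σ) (p : ℕ) [Fact p.Prime] (k : ℕ)
    (hF : (Ideal.span {(p : 𝓞 F)}).IsPrime)
    (hL : (Ideal.span {(p : 𝓞 L)}).radical ^ (p ^ k) ≤ Ideal.span {(p : 𝓞 L)}) :
    ∃ σ : L ≃ₐ[F] L, ∀ x : 𝓞 L, ∃ y : 𝓞 L,
      (x : L) ^ (p ^ (Module.finrank ℚ F + k)) - (σ x) ^ (p ^ k) = (p : L) * (y : L) := by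
  obtain ⟨σ, hσ⟩ := frob_rad hcomm p hF
  refine ⟨σ, fun x => ?_⟩
  obtain ⟨y, hy⟩ := pow_congr p k _ _ hL (hσ x)
  refine ⟨y, ?_⟩
  rw [← pow_mul, ← pow_add] at hy
  have h5 := congrArg (algebraMap (𝓞 L) L) hy
  rw [map_sub, map_pow, map_pow, map_mul, map_natCast] at h5
  exact h5

end Pool.Agent.W738.SAL
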