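import Mathlib
import Pool.Agent.W738.SAL.C
import Pool.Agent.W738.SAL.D
import Pool.Agent.H196R3.Parry

/-!
# Parry powers and the trace field
-/

set_option autoImplicit false

open Polynomial NumberField

namespace Pool.Agent.W738.SAL

/-- the `n ≥ 1` such that `β ^ n` is a Parry number -/
def ParryPowers (β : ℝ) : Set ℕ :=
  {n : ℕ | 1 ≤ n ∧ Set.Finite (Set.range (fun k : ℕ =>
    (fun x : ℝ => Int.fract (β ^ n * x))^[k] (1 : ℝ)))}

/-- `β` is a Perron number -/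
def IsPerron (β : ℝ) : Prop :=
  1 < β ∧ IsIntegral ℤ β ∧
    ∀ z : ℂ, aeval z (minpoly ℤ β) = 0 → z ≠ (β : ℂ) → ‖z‖ < β

/-- `β⁻¹` is a conjugate of `β` -/
def IsReciprocal (β : ℝ) : Prop := aeval β⁻¹ (minpoly ℤ β) = 0

lemma one_of_inf {β : ℝ} (hP : IsPerron β) (hinf : ¬ (ParryPowers β).Finite) {z : ℂ}
    (hz : aeval z (minpoly ℤ β) = 0) (hne : z ≠ (β : ℂ)) : ‖z‖ ≤ 1 :=
  Pool.Agent.H196R3.Parry.conj_le_one hP.1 hP.2.1 hP.2.2 hinf hz hne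

theorem main1 {β : ℝ} (hP : IsPerron β) (hrec : IsReciprocal β) {p : ℕ} (hp : p.Prime) {i j : ℕ}
    {σ : TF β ≃ₐ[ℚ] TF β} (hij : j < i ∨ (j = i ∧ σ ≠ 1)) {y : TF β} (hy : IsIntegral ℤ y)
    (hσ : tt β ^ (p ^ i) - (σ (tt β)) ^ (p ^ j) = p * y)
    (hb : (U β (p ^ i) + 2) * (U β (p ^ j) + 2) <
      16 * ((p : ℝ) / 4) ^ (Module.finrank ℚ (TF β))) : (ParryPowers β).Finite := by
  have : Fact p.Prime := ⟨hp⟩
  by_contra hinf
  have h1 := criterion hP.1 hP.2.1 hrec (fun z hz hne => one_of_inf hP hinf hz hne) hij hy hσ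
  linarith

lemma tt_integral {β : ℝ} (hP : IsPerron β) (hrec : IsReciprocal β) : IsIntegral ℤ (tt β) := by
  have hrecint : IsIntegral ℤ β⁻¹ := ⟨minpoly ℤ β, minpoly.monic hP.2.1, by
    rw [← aeval_def]; exact hrec⟩
  have htR : IsIntegral ℤ (β + β⁻¹) := hP.2.1.add hrecint
  have h1 : IsIntegral ℤ ((TF β).val (tt β)) := htR
  exact (isIntegral_algHom_iff ((TF β).val.restrictScalars ℤ) (TF β).val.injective).1 h1

lemma tf_finite {β : ℝ} (hP : IsPerron β) (hrec : IsReciprocal β) :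
    FiniteDimensional ℚ (TF β) := by
  have hrecint : IsIntegral ℤ β⁻¹ := ⟨minpoly ℤ β, minpoly.monic hP.2.1, by
    rw [← aeval_def]; exact hrec⟩
  have htR : IsIntegral ℤ (β + β⁻¹) := hP.2.1.add hrecint
  exact IntermediateField.adjoin.finiteDimensional htR.tower_top

theorem main2 {β : ℝ} (hP : IsPerron β) (hrec : IsReciprocal β) (F : IntermediateField ℚ (TF β))
    [IsGalois F (TF β)] (hcomm : ∀ σ τ : TF β ≃ₐ[F] TF β, σ * τ = τ * σ) {p : ℕ} (hp : p.Prime)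
    (hF : (Ideal.span {(p : 𝓞 F)}).IsPrime) (k : ℕ)
    (hk : (Ideal.span {(p : 𝓞 (TF β))}).radical ^ (p ^ k) ≤ Ideal.span {(p : 𝓞 (TF β))})
    (hb : (U β (p ^ (Module.finrank ℚ F + k)) + 2) * (U β (p ^ k) + 2) <
      16 * ((p : ℝ) / 4) ^ (Module.finrank ℚ (TF β))) : (ParryPowers β).Finite := by
  have : Fact p.Prime := ⟨hp⟩
  have hfd := tf_finite hP hrec
  have : NumberField (TF β) := ⟨⟩
  have : NumberField F := ⟨⟩
  obtain ⟨σ, hσ⟩ := frob hcomm p k hF hk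
  obtain ⟨y, hy⟩ := hσ ⟨tt β, tt_integral hP hrec⟩
  refine main1 hP hrec hp (i := Module.finrank ℚ F + k) (j := k)
    (σ := σ.restrictScalars ℚ) (Or.inl ?_) (y := (y : TF β)) y.2 hy hb
  have : 0 < Module.finrank ℚ F := Module.finrank_pos
  omega

lemma lehmer_lt {τ : ℝ} (h1 : 1 < τ)
    (h : τ ^ 10 + τ ^ 9 - τ ^ 7 - τ ^ 6 - τ ^ 5 - τ ^ 4 - τ ^ 3 + τ + 1 = 0) : τ < 1.19 := by
  by_contra hcon
  push Not at hcon
  obtain ⟨y, rfl⟩ : ∃ y : ℝ, τ = 1.19 + y := ⟨τ - 1.19, by ring⟩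
  have hy : 0 ≤ y := by linarith
  ring_nf at h
  have : 0 < y * (1:ℝ) + 1 := by positivity
  nlinarith [pow_nonneg hy 2, pow_nonneg hy 3, pow_nonneg hy 4, pow_nonneg hy 5, pow_nonneg hy 6,
    pow_nonneg hy 7, pow_nonneg hy 8, pow_nonneg hy 9, pow_nonneg hy 10]

lemma U_mono {β γ : ℝ} (hβ : 1 < β) (h : β ≤ γ) (m : ℕ) : U β m ≤ U γ m := by
  unfold U
  rw [inv_pow, inv_pow]
  have h1 : 1 ≤ β ^ m := one_le_pow₀ hβ.le
  have h2 : β ^ m ≤ γ ^ m := pow_le_pow_left₀ (by linarith) h m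
  have h3 : 0 < β ^ m := by linarith
  have h4 : 0 < γ ^ m := by linarith
  have h5 : γ ^ m + (γ ^ m)⁻¹ - (β ^ m + (β ^ m)⁻¹)
      = (γ ^ m - β ^ m) * (γ ^ m * β ^ m - 1) / (γ ^ m * β ^ m) := by
    field_simp
    ring
  have h6 : 0 ≤ (γ ^ m - β ^ m) * (γ ^ m * β ^ m - 1) / (γ ^ m * β ^ m) := by
    apply div_nonneg
    · apply mul_nonneg (by linarith)
      nlinarith
    · positivity
  linarith

/-- the numerical bounds -/
lemma bound {β : ℝ} (h1 : 1 < β) (h2 : β ≤ 1.19) {p : ℕ} (hp : p.Prime) (h5 : 5 ≤ p)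
    (h31 : p ≤ 31) {n : ℕ} (hn : 2 ≤ n) :
    (U β (p ^ 1) + 2) * (U β (p ^ 0) + 2) < 16 * ((p : ℝ) / 4) ^ n := by
  have hU1 := U_mono h1 h2 (p ^ 1)
  have hU0 := U_mono h1 h2 (p ^ 0)
  have h2U := U_two_le (show (0:ℝ) < β by linarith) (p ^ 1)
  have h2U0 := U_two_le (show (0:ℝ) < β by linarith) (p ^ 0)
  have hp4 : (1:ℝ) ≤ (p : ℝ) / 4 := by
    have : (5:ℝ) ≤ p := by exact_mod_cast h5
    linarith
  have h3 : ((p : ℝ) / 4) ^ 2 ≤ ((p : ℝ) / 4) ^ n := pow_le_pow_right₀ hp4 hn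
  have h4 : (U β (p ^ 1) + 2) * (U β (p ^ 0) + 2) ≤
      (U 1.19 (p ^ 1) + 2) * (U 1.19 (p ^ 0) + 2) := by
    apply mul_le_mul (by linarith) (by linarith) (by linarith) (by linarith)
  have h6 : (U 1.19 (p ^ 1) + 2) * (U 1.19 (p ^ 0) + 2) < 16 * ((p : ℝ) / 4) ^ 2 := by
    unfold U
    rw [pow_zero, pow_one]
    interval_cases p <;> first | (exfalso; revert hp; norm_num; done) | norm_num
  linarith

end Pool.Agent.W738.SAL
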