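import Mathlib
import Pool.Agent.W738.SAL.E

/-!
# Below Lehmer's number
-/

set_option autoImplicit false

open Polynomial NumberField

namespace Pool.Agent.W738.SAL

lemma add_inv_lt_three {β : ℝ} (h1 : 1 < β) (h2 : β ≤ 1.19) : β + β⁻¹ < 3 := by
  have : β⁻¹ < 1 := inv_lt_one_of_one_lt₀ h1
  linarith

/-- a Frobenius-type congruence for `p ∈ [5,31]` -/
theorem main3a {β : ℝ} (hP : IsPerron β) (hrec : IsReciprocal β) (hβ : β ≤ 1.19) {p : ℕ}
    (hp : p.Prime) (h5 : 5 ≤ p) (h31 : p ≤ 31)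
    {σ : TF β ≃ₐ[ℚ] TF β} {y : TF β} (hy : IsIntegral ℤ y)
    (hσ : tt β ^ p - σ (tt β) = p * y) : (ParryPowers β).Finite := by
  refine main1 hP hrec hp (i := 1) (j := 0) (σ := σ) (Or.inl one_pos) hy ?_ ?_
  · rw [pow_one, pow_zero, pow_one]; exact hσ
  · exact bound hP.1 hβ hp h5 h31
      (two_le_finrank hP.1 hP.2.1 hrec (add_inv_lt_three hP.1 hβ))

/-- an inertia-type congruence for `p ∈ {5,7,11,13}` -/
theorem main3c {β : ℝ} (hP : IsPerron β) (hrec : IsReciprocal β) (hβ : β ≤ 1.19) {p : ℕ}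
    (hp : p.Prime) (h5 : 5 ≤ p) (h13 : p ≤ 13)
    {σ : TF β ≃ₐ[ℚ] TF β} (hσ1 : σ ≠ 1) {y : TF β} (hy : IsIntegral ℤ y)
    (hσ : tt β ^ p - (σ (tt β)) ^ p = p * y) : (ParryPowers β).Finite := by
  refine main1 hP hrec hp (i := 1) (j := 1) (σ := σ) (Or.inr ⟨rfl, hσ1⟩) hy ?_ ?_
  · rw [pow_one]; exact hσ
  · have h1 := hP.1
    have hn := two_le_finrank hP.1 hP.2.1 hrec (add_inv_lt_three hP.1 hβ)
    have hU1 := U_mono h1 hβ (p ^ 1)
    have h2U := U_two_le (show (0:ℝ) < β by linarith) (p ^ 1)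
    have hp4 : (1:ℝ) ≤ (p : ℝ) / 4 := by
      have : (5:ℝ) ≤ p := by exact_mod_cast h5
      linarith
    have h3 : ((p : ℝ) / 4) ^ 2 ≤ ((p : ℝ) / 4) ^ (Module.finrank ℚ (TF β)) :=
      pow_le_pow_right₀ hp4 hn
    have h4 : (U β (p ^ 1) + 2) * (U β (p ^ 1) + 2) ≤
        (U 1.19 (p ^ 1) + 2) * (U 1.19 (p ^ 1) + 2) := by
      apply mul_le_mul (by linarith) (by linarith) (by linarith) (by linarith)
    have h6 : (U 1.19 (p ^ 1) + 2) * (U 1.19 (p ^ 1) + 2) < 16 * ((p : ℝ) / 4) ^ 2 := by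
      unfold U
      rw [pow_one]
      interval_cases p <;> first | (exfalso; revert hp; norm_num; done) | norm_num
    linarith

/-- abelian trace field with an unramified prime `p ∈ [5,31]` -/
theorem main3b {β : ℝ} (hP : IsPerron β) (hrec : IsReciprocal β) (hβ : β ≤ 1.19)
    [IsGalois ℚ (TF β)] (hcomm : ∀ σ τ : TF β ≃ₐ[ℚ] TF β, σ * τ = τ * σ) {p : ℕ}
    (hp : p.Prime) (h5 : 5 ≤ p) (h31 : p ≤ 31)
    (hr : (Ideal.span {(p : 𝓞 (TF β))}).IsRadical) : (ParryPowers β).Finite := by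
  have : Fact p.Prime := ⟨hp⟩
  have hfd := tf_finite hP hrec
  have : NumberField (TF β) := ⟨⟩
  have hprime : (Ideal.span {(p : 𝓞 ℚ)}).IsPrime := by
    rw [Ideal.span_singleton_prime (by exact_mod_cast hp.ne_zero)]
    have h1 : Prime (p : ℤ) := Nat.prime_iff_prime_int.1 hp
    have h2 := (MulEquiv.prime_iff (Rat.ringOfIntegersEquiv.symm : ℤ ≃+* 𝓞 ℚ)
      (p := (p : ℤ))).2 h1
    simpa using h2
  obtain ⟨σ, hσ⟩ := frob hcomm p 0 hprime (by rw [pow_zero, pow_one]; exact hr)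
  obtain ⟨y, hy⟩ := hσ ⟨tt β, tt_integral hP hrec⟩
  rw [Module.finrank_self, add_zero, pow_one, pow_zero, pow_one] at hy
  exact main3a hP hrec hβ hp h5 h31 (σ := σ) y.2 hy

/-- quadratic base fields -/
theorem main3d {β : ℝ} (hP : IsPerron β) (hrec : IsReciprocal β) (hβ : β ≤ 1.19)
    (F : IntermediateField ℚ (TF β)) (hF2 : Module.finrank ℚ F = 2)
    [IsGalois F (TF β)] (hcomm : ∀ σ τ : TF β ≃ₐ[F] TF β, σ * τ = τ * σ) {p : ℕ}
    (hp57 : p = 5 ∨ p = 7) (hF : (Ideal.span {(p : 𝓞 F)}).IsPrime)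
    (hr : (Ideal.span {(p : 𝓞 (TF β))}).IsRadical)
    (hn : 14 ≤ Module.finrank ℚ (TF β)) : (ParryPowers β).Finite := by
  have hp : p.Prime := by rcases hp57 with rfl | rfl <;> norm_num
  refine main2 hP hrec F hcomm hp hF 0 (by rw [pow_zero, pow_one]; exact hr) ?_
  rw [hF2]
  have h1 := hP.1
  have hU1 := U_mono h1 hβ (p ^ (2 + 0))
  have hU0 := U_mono h1 hβ (p ^ 0)
  have h2U := U_two_le (show (0:ℝ) < β by linarith) (p ^ (2 + 0))
  have h2U0 := U_two_le (show (0:ℝ) < β by linarith) (p ^ 0)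
  have hp4 : (1:ℝ) ≤ (p : ℝ) / 4 := by
    rcases hp57 with rfl | rfl <;> norm_num
  have h3 : ((p : ℝ) / 4) ^ 14 ≤ ((p : ℝ) / 4) ^ (Module.finrank ℚ (TF β)) :=
    pow_le_pow_right₀ hp4 hn
  have h4 : (U β (p ^ (2 + 0)) + 2) * (U β (p ^ 0) + 2) ≤
      (U 1.19 (p ^ (2 + 0)) + 2) * (U 1.19 (p ^ 0) + 2) := by
    apply mul_le_mul (by linarith) (by linarith) (by linarith) (by linarith)
  have h6 : (U 1.19 (p ^ (2 + 0)) + 2) * (U 1.19 (p ^ 0) + 2) < 16 * ((p : ℝ) / 4) ^ 14 := by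
    unfold U
    rcases hp57 with rfl | rfl <;> norm_num
  linarith

end Pool.Agent.W738.SAL
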