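import Mathlib
import Pool.Agent.W738.SAL.F

/-!
# Named conditions
-/

set_option autoImplicit false

open Polynomial NumberField

namespace Pool.Agent.W738.SAL

/-- the ideal `p 𝓞` is prime -/
def Inert (F : Type) [Field F] (p : ℕ) : Prop := (Ideal.span {(p : 𝓞 F)}).IsPrime

/-- `rad(p 𝓞)^m ⊆ p 𝓞`: the ramification indices of `p` are at most `m` -/
def RamLe (K : Type) [Field K] (p m : ℕ) : Prop :=
  (Ideal.span {(p : 𝓞 K)}).radical ^ m ≤ Ideal.span {(p : 𝓞 K)}

/-- `K/F` is Galois with abelian group -/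
def Abelian (F K : Type) [Field F] [Field K] [Algebra F K] : Prop :=
  IsGalois F K ∧ ∀ σ τ : K ≃ₐ[F] K, σ * τ = τ * σ

/-- `K` is abelian over a subfield `F` of degree `d` in which `p` is inert, and the ramification
indices of `p` in `K` are at most `p ^ k` -/
def RelAb (K : Type) [Field K] [CharZero K] (p d k : ℕ) : Prop :=
  ∃ F : Subfield K, Module.finrank ℚ F = d ∧ Abelian F K ∧ Inert F p ∧ RamLe K p (p ^ k)

theorem main4 {β : ℝ} (hP : IsPerron β) (hrec : IsReciprocal β) {p : ℕ} (hp : p.Prime) {d k : ℕ}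
    (hab : RelAb (TF β) p d k)
    (hb : (U β (p ^ (d + k)) + 2) * (U β (p ^ k) + 2) <
      16 * ((p : ℝ) / 4) ^ (Module.finrank ℚ (TF β))) : (ParryPowers β).Finite := by
  obtain ⟨F, rfl, ⟨hG, hcomm⟩, hF, hk⟩ := hab
  have : Fact p.Prime := ⟨hp⟩
  have hfd := tf_finite hP hrec
  have : NumberField (TF β) := ⟨⟩
  have hfd2 : FiniteDimensional ℚ F :=
    FiniteDimensional.of_injective (F.subtype.toRatAlgHom.toLinearMap) F.subtype.injective
  have : NumberField F := ⟨⟩
  obtain ⟨σ, hσ⟩ := frob hcomm p k hF hk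
  obtain ⟨y, hy⟩ := hσ ⟨tt β, tt_integral hP hrec⟩
  refine main1 hP hrec hp (i := Module.finrank ℚ F + k) (j := k)
    (σ := AlgEquiv.ofRingEquiv (f := σ.toRingEquiv) (fun q => by simp)) (Or.inl ?_)
    (y := (y : TF β)) y.2 hy hb
  have : 0 < Module.finrank ℚ F := Module.finrank_pos
  omega

end Pool.Agent.W738.SAL
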