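import Mathlib
import Pool.Agent.W738.SAL.G

/-!
# Trace fields abelian over an arbitrary subfield
-/

set_option autoImplicit false

open Polynomial NumberField

namespace Pool.Agent.W738.SAL

section bounds

variable {β : ℝ} (hβ : 1 < β) (hint : IsIntegral ℤ β) (hrec : aeval β⁻¹ (minpoly ℤ β) = 0)
  (hone : ∀ z : ℂ, aeval z (minpoly ℤ β) = 0 → z ≠ (β : ℂ) → ‖z‖ ≤ 1)

lemma φ_comp (σ : TF β ≃ₐ[ℚ] TF β) (φ : TF β →ₐ[ℚ] ℂ) (m : ℕ) :
    φ (aeval (σ (tt β)) (dickson 1 (1 : ℤ) m)) =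
      (φ.comp σ.toAlgHom) (aeval (tt β) (dickson 1 (1 : ℤ) m)) := by
  have h3 := aeval_algHom_apply (σ.toAlgHom.restrictScalars ℤ) (tt β) (dickson 1 (1 : ℤ) m)
  have h4 : (σ.toAlgHom.restrictScalars ℤ) (tt β) = σ (tt β) := rfl
  rw [h4] at h3
  rw [h3]
  rfl

include hβ hint hrec hone in
lemma z_ne_zero (σ : TF β ≃ₐ[ℚ] TF β) {a b : ℕ} (hab : b < a) :
    aeval (tt β) (dickson 1 (1 : ℤ) a) - aeval (σ (tt β)) (dickson 1 (1 : ℤ) b) ≠ 0 := by
  intro h0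
  have hβ0 : β ≠ 0 := by linarith
  have h3 := congrArg (φ₀ β) h0
  rw [map_zero, map_sub, φ₀_dickson hβ0, φ_comp, sub_eq_zero] at h3
  by_cases h4 : (φ₀ β).comp σ.toAlgHom = φ₀ β
  · rw [h4, φ₀_dickson hβ0] at h3
    have h5 : U β a = U β b := by exact_mod_cast h3
    have := U_lt hβ hab
    linarith
  · have h5 := norm_φ_other hβ hint hrec hone h4 b
    rw [← h3, Complex.norm_real, Real.norm_eq_abs] at h5
    have h6 := U_two_lt hβ (show 1 ≤ a by omega)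
    have h7 := le_abs_self (U β a)
    linarith

include hβ hint hrec hone in
lemma prod_bound [FiniteDimensional ℚ (TF β)] (σ : TF β ≃ₐ[ℚ] TF β) {a b : ℕ} (hpi : 1 ≤ a)
    (hpj : 1 ≤ b) :
    ∏ φ : TF β →ₐ[ℚ] ℂ, ‖φ (aeval (tt β) (dickson 1 (1 : ℤ) a) -
      aeval (σ (tt β)) (dickson 1 (1 : ℤ) b))‖ ≤
      (U β a + 2) * (U β b + 2) / 16 * 4 ^ (Module.finrank ℚ (TF β)) := by
  classical
  have hβ0 : β ≠ 0 := by linarith
  set ψ₀ : TF β →ₐ[ℚ] ℂ := (φ₀ β).comp σ.symm.toAlgHom with hψ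
  have hup : ∀ φ : TF β →ₐ[ℚ] ℂ, ‖φ (aeval (tt β) (dickson 1 (1 : ℤ) a) -
      aeval (σ (tt β)) (dickson 1 (1 : ℤ) b))‖ ≤
      ((if φ = φ₀ β then U β a + 2 else 4) * (if φ = ψ₀ then U β b + 2 else 4)) * (1 / 4) := by
    intro φ
    have h3 : ‖φ (aeval (tt β) (dickson 1 (1 : ℤ) a))‖ ≤
        (if φ = φ₀ β then U β a + 2 else 4) - 2 := by
      split_ifs with h
      · rw [h, φ₀_dickson hβ0, Complex.norm_real, Real.norm_eq_abs,
          abs_of_pos (by linarith [U_two_lt hβ hpi])]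
        linarith
      · have := norm_φ_other hβ hint hrec hone h a
        linarith
    have h4 : ‖φ (aeval (σ (tt β)) (dickson 1 (1 : ℤ) b))‖ ≤
        (if φ = ψ₀ then U β b + 2 else 4) - 2 := by
      rw [φ_comp]
      split_ifs with h
      · have h5 : φ.comp σ.toAlgHom = φ₀ β := by
          rw [h, hψ]
          ext x
          change φ₀ β (σ.symm (σ x)) = φ₀ β x
          rw [AlgEquiv.symm_apply_apply]
        rw [h5, φ₀_dickson hβ0, Complex.norm_real, Real.norm_eq_abs,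
          abs_of_pos (by linarith [U_two_lt hβ hpj])]
        linarith
      · have h5 : φ.comp σ.toAlgHom ≠ φ₀ β := by
          intro h6
          apply h
          rw [hψ, ← h6]
          ext x
          change φ x = φ (σ (σ.symm x))
          rw [AlgEquiv.apply_symm_apply]
        have := norm_φ_other hβ hint hrec hone h5 b
        linarith
    have h5 : ‖φ (aeval (tt β) (dickson 1 (1 : ℤ) a) -
      aeval (σ (tt β)) (dickson 1 (1 : ℤ) b))‖ ≤ ‖φ (aeval (tt β) (dickson 1 (1 : ℤ) a))‖ +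
        ‖φ (aeval (σ (tt β)) (dickson 1 (1 : ℤ) b))‖ := by
      rw [map_sub]
      exact norm_sub_le _ _
    have h6 : 4 ≤ (if φ = φ₀ β then U β a + 2 else 4) := by
      split_ifs
      · linarith [U_two_lt hβ hpi]
      · exact le_refl _
    have h7 : 4 ≤ (if φ = ψ₀ then U β b + 2 else 4) := by
      split_ifs
      · linarith [U_two_lt hβ hpj]
      · exact le_refl _
    nlinarith [mul_nonneg (sub_nonneg.2 h6) (sub_nonneg.2 h7)]
  have hprod := Finset.prod_le_prod (s := Finset.univ) (fun φ _ => norm_nonneg (φ (aeval (tt β) (dickson 1 (1 : ℤ) a) -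
      aeval (σ (tt β)) (dickson 1 (1 : ℤ) b))))
    (fun φ _ => hup φ)
  rw [Finset.prod_mul_distrib, Finset.prod_mul_distrib, prod_ite_le, prod_ite_le,
    Finset.prod_const, Finset.card_univ, AlgHom.card ℚ (TF β) ℂ] at hprod
  refine hprod.trans (le_of_eq ?_)
  set n := Module.finrank ℚ (TF β) with hn
  have h9 : (4:ℝ) ^ n * (1 / 4) ^ n = 1 := by rw [← mul_pow]; norm_num
  calc (U β a + 2) / 4 * 4 ^ n * ((U β b + 2) / 4 * 4 ^ n) * (1 / 4) ^ n
      = (U β a + 2) * (U β b + 2) / 16 * 4 ^ n * (4 ^ n * (1 / 4) ^ n) := by ring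
    _ = _ := by rw [h9, mul_one]

end bounds

/-- the common Frobenius element of the primes above `P` -/
theorem frob_at {F L : Type*} [Field F] [NumberField F] [Field L] [NumberField L] [Algebra F L]
    [IsGalois F L] (hcomm : ∀ σ τ : L ≃ₐ[F] L, σ * τ = τ * σ) (P : Ideal (𝓞 F)) (hP : P.IsPrime)
    (hP0 : P ≠ ⊥) :
    ∃ σ : L ≃ₐ[F] L, ∀ Q : Ideal (𝓞 L), Q.IsPrime → Q.under (𝓞 F) = P → ∀ x : 𝓞 L,
      x ^ (Nat.card (𝓞 F ⧸ P)) - σ • x ∈ Q := by
  classical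
  obtain ⟨Q₀⟩ : Nonempty (Ideal.primesOver P (𝓞 L)) := inferInstance
  have hfin : ∀ Q : Ideal.primesOver P (𝓞 L), Finite (𝓞 L ⧸ Q.1) := by
    intro Q
    apply Ideal.finiteQuotientOfFreeOfNeBot
    intro h4
    apply hP0
    have h2 := Q.2.2.over
    rw [h2, h4]
    exact Ideal.comap_bot_of_injective _ (FaithfulSMul.algebraMap_injective (𝓞 F) (𝓞 L))
  obtain ⟨s, hs1, hs2⟩ := IsArithFrobAt.exists_primesOver_isConj (R := 𝓞 F) (𝓞 L) (L ≃ₐ[F] L)
    P ⟨Q₀, hfin Q₀⟩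
  have hs : ∀ Q, s Q = s Q₀ := by
    intro Q
    obtain ⟨c, hc⟩ := isConj_iff.1 (hs2 Q Q₀)
    rw [← hc, hcomm c, mul_assoc, mul_inv_cancel, mul_one]
  refine ⟨s Q₀, fun J hJ2 hunder x => ?_⟩
  have h1 := hs1 ⟨J, hJ2, ⟨hunder.symm⟩⟩ x
  rw [hs] at h1
  have h3 : s Q₀ • x - x ^ (Nat.card (𝓞 F ⧸ P)) ∈ J := by
    rw [← hunder]; exact h1
  rw [← neg_sub]
  exact J.neg_mem h3

/-- the residue field has `p ^ f` elements, `f ≥ 1` -/
lemma card_quot {F : Type*} [Field F] [NumberField F] {p : ℕ} [Fact p.Prime] (P : Ideal (𝓞 F))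
    (hP : P.IsPrime) (hp : (p : 𝓞 F) ∈ P) : ∃ f : ℕ, 0 < f ∧ Nat.card (𝓞 F ⧸ P) = p ^ f := by
  have hpp : p.Prime := Fact.out
  have hP0 : P ≠ ⊥ := by
    rintro rfl
    have : (p : 𝓞 F) = 0 := by simpa using hp
    exact hpp.ne_zero (by exact_mod_cast this)
  have hmax : P.IsMaximal := hP.isMaximal hP0
  have hfin : Finite (𝓞 F ⧸ P) := Ideal.finiteQuotientOfFreeOfNeBot P hP0
  let _ := Ideal.Quotient.field P
  let _ := Fintype.ofFinite (𝓞 F ⧸ P)
  have : CharP (𝓞 F ⧸ P) p := by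
    have h4 : (p : 𝓞 F ⧸ P) = 0 := by
      rw [← map_natCast (Ideal.Quotient.mk P), Ideal.Quotient.eq_zero_iff_mem]
      exact hp
    exact (CharP.charP_iff_prime_eq_zero hpp).2 h4
  obtain ⟨n, -, hn⟩ := FiniteField.card (𝓞 F ⧸ P) p
  exact ⟨n, n.pos, by rw [Nat.card_eq_fintype_card, hn]⟩

end Pool.Agent.W738.SAL
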