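import Mathlib
import Pool.Agent.W738.SAL.K

/-!
# Trace fields abelian over an arbitrary subfield: main theorem
-/

set_option autoImplicit false

open Polynomial NumberField

namespace Pool.Agent.W738.SAL

/-- the prime ideals of `𝓞 F` that contain `p` -/
def primesAbove (F : Type) [Field F] (p : ℕ) : Set (Ideal (𝓞 F)) :=
  {P | P.IsPrime ∧ (p : 𝓞 F) ∈ P}

lemma primesAbove_finite (F : Type) [Field F] [NumberField F] {p : ℕ} (hp : p.Prime) :
    (primesAbove F p).Finite := by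
  have hmax : (Ideal.span {(p : ℤ)}).IsMaximal := by
    have hpr : (Ideal.span {(p : ℤ)}).IsPrime := by
      rw [Ideal.span_singleton_prime (by exact_mod_cast hp.ne_zero)]
      exact Nat.prime_iff_prime_int.1 hp
    apply hpr.isMaximal
    rw [Ne, Ideal.span_singleton_eq_bot]
    exact_mod_cast hp.ne_zero
  refine (IsDedekindDomain.primesOver_finite (Ideal.span {(p : ℤ)}) (𝓞 F)).subset ?_
  rintro P ⟨hP, hpP⟩
  refine ⟨hP, ⟨?_⟩⟩
  apply hmax.eq_of_le
  · exact (Ideal.IsPrime.under ℤ P).ne_top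
  · rw [Ideal.span_singleton_le_iff_mem, Ideal.under_def, Ideal.mem_comap]
    simpa using hpP

/-- the upper bound for the norm of the auxiliary number -/
noncomputable def Cost (β : ℝ) (F : Type) [Field F] (p k n : ℕ) : ℝ :=
  ∏ᶠ P ∈ primesAbove F p,
    (U β (Nat.card (𝓞 F ⧸ P) * p ^ k) + 2) * (U β (p ^ k) + 2) / 16 * 4 ^ n

lemma mk_dickson {R : Type*} [CommRing R] (p : ℕ) [Fact p.Prime] (i : ℕ) (x : R) :
    Ideal.Quotient.mk (Ideal.span {(p : R)}) (aeval x (dickson 1 (1 : ℤ) (p ^ i))) =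
      (Ideal.Quotient.mk (Ideal.span {(p : R)}) x) ^ (p ^ i) := by
  obtain ⟨Q, hQ⟩ := dickson_dvd p i
  rw [hQ, map_add, map_add, map_mul, map_mul, aeval_X_pow, map_pow, aeval_C]
  have h4 : Ideal.Quotient.mk (Ideal.span {(p : R)}) (algebraMap ℤ R (p : ℤ)) = 0 := by
    rw [Ideal.Quotient.eq_zero_iff_mem]
    simpa using Ideal.subset_span (s := {(p : R)}) rfl
  rw [h4, zero_mul, add_zero]

lemma mk_sub_pow {R : Type*} [CommRing R] (p : ℕ) [Fact p.Prime] (k : ℕ) (a b : R) :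
    (Ideal.Quotient.mk (Ideal.span {(p : R)}) a) ^ (p ^ k) -
      (Ideal.Quotient.mk (Ideal.span {(p : R)}) b) ^ (p ^ k) =
      (Ideal.Quotient.mk (Ideal.span {(p : R)}) (a - b)) ^ (p ^ k) := by
  have hp : p.Prime := Fact.out
  rcases subsingleton_or_nontrivial (R ⧸ Ideal.span {(p : R)}) with h3 | h3
  · exact Subsingleton.elim _ _
  · have : CharP (R ⧸ Ideal.span {(p : R)}) p := by
      have h4 : (p : R ⧸ Ideal.span {(p : R)}) = 0 := by
        rw [← map_natCast (Ideal.Quotient.mk (Ideal.span {(p : R)})),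
          Ideal.Quotient.eq_zero_iff_mem]
        exact Ideal.subset_span rfl
      exact (CharP.charP_iff_prime_eq_zero hp).2 h4
    rw [map_sub, sub_pow_char_pow]

theorem main5 {β : ℝ} (hP : IsPerron β) (hrec : IsReciprocal β) {p : ℕ} (hp : p.Prime) {k : ℕ}
    (F : Subfield (TF β)) (hab : Abelian F (TF β)) (hk : RamLe (TF β) p (p ^ k))
    (hb : Cost β F p k (Module.finrank ℚ (TF β)) < (p : ℝ) ^ (Module.finrank ℚ (TF β))) :
    (ParryPowers β).Finite := by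
  classical
  obtain ⟨hG, hcomm⟩ := hab
  have : Fact p.Prime := ⟨hp⟩
  have hfd := tf_finite hP hrec
  have : NumberField (TF β) := ⟨⟩
  have hfd2 : FiniteDimensional ℚ F :=
    FiniteDimensional.of_injective (F.subtype.toRatAlgHom.toLinearMap) F.subtype.injective
  have : NumberField F := ⟨⟩
  by_contra hinf
  have hone : ∀ z : ℂ, aeval z (minpoly ℤ β) = 0 → z ≠ (β : ℂ) → ‖z‖ ≤ 1 :=
    fun z hz hne => one_of_inf hP hinf hz hne
  set n := Module.finrank ℚ (TF β) with hn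
  have hfin := primesAbove_finite F hp
  set s : Finset (Ideal (𝓞 F)) := hfin.toFinset with hs
  have hmem : ∀ P, P ∈ s ↔ P ∈ primesAbove F p := fun P => hfin.mem_toFinset
  have hfrob : ∀ P ∈ primesAbove F p, ∃ σ : TF β ≃ₐ[F] TF β, ∀ Q : Ideal (𝓞 (TF β)), Q.IsPrime →
      Q.under (𝓞 F) = P → ∀ x : 𝓞 (TF β), x ^ (Nat.card (𝓞 F ⧸ P)) - σ • x ∈ Q := by
    rintro P ⟨h1, h2⟩
    apply frob_at hcomm P h1
    rintro rfl
    have : (p : 𝓞 F) = 0 := by simpa using h2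
    exact hp.ne_zero (by exact_mod_cast this)
  have hcard : ∀ P ∈ primesAbove F p, ∃ f : ℕ, 0 < f ∧ Nat.card (𝓞 F ⧸ P) = p ^ f :=
    fun P hP => card_quot P hP.1 hP.2
  choose! σ hσ using hfrob
  choose! f hf0 hf using hcard
  -- the automorphisms over `ℚ`
  set τ : Ideal (𝓞 F) → (TF β ≃ₐ[ℚ] TF β) := fun P =>
    AlgEquiv.ofRingEquiv (f := (σ P).toRingEquiv) (fun q => by simp) with hτ
  have hτσ : ∀ P (x : TF β), τ P x = σ P x := fun P x => rfl
  set T : 𝓞 (TF β) := ⟨tt β, tt_integral hP hrec⟩ with hT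
  set zz : Ideal (𝓞 F) → TF β := fun P =>
    aeval (tt β) (dickson 1 (1 : ℤ) (Nat.card (𝓞 F ⧸ P) * p ^ k)) -
      aeval (τ P (tt β)) (dickson 1 (1 : ℤ) (p ^ k)) with hzz
  set z' : Ideal (𝓞 F) → 𝓞 (TF β) := fun P =>
    aeval T (dickson 1 (1 : ℤ) (Nat.card (𝓞 F ⧸ P) * p ^ k)) -
      aeval (σ P • T) (dickson 1 (1 : ℤ) (p ^ k)) with hz'
  have hcoe : ∀ P, algebraMap (𝓞 (TF β)) (TF β) (z' P) = zz P := by
    intro P
    rw [hz', hzz]
    simp only [map_sub]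
    rw [← aeval_algebraMap_apply, ← aeval_algebraMap_apply]
    rfl
  -- divisibility
  have hdiv : (∏ P ∈ s, z' P) ∈ Ideal.span {(p : 𝓞 (TF β))} := by
    set w : 𝓞 (TF β) := ∏ P ∈ s, (T ^ (Nat.card (𝓞 F ⧸ P)) - σ P • T) with hw
    have hw1 : w ∈ (Ideal.span {(p : 𝓞 (TF β))}).radical := by
      rw [Ideal.radical_eq_sInf, Ideal.mem_sInf]
      rintro J ⟨hJ1, hJ2⟩
      have hJp : (p : 𝓞 (TF β)) ∈ J := hJ1 (Ideal.subset_span rfl)
      have hS : J.under (𝓞 F) ∈ primesAbove F p := by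
        refine ⟨?_, ?_⟩
        · have := hJ2
          exact Ideal.IsPrime.under (𝓞 F) J
        · rw [Ideal.under_def, Ideal.mem_comap]
          simpa using hJp
      rw [hw, ← Finset.mul_prod_erase s _ ((hmem _).2 hS)]
      exact J.mul_mem_right _ (hσ _ hS J hJ2 rfl T)
    have hw2 : w ^ (p ^ k) ∈ Ideal.span {(p : 𝓞 (TF β))} := hk (Ideal.pow_mem_pow hw1 _)
    rw [← Ideal.Quotient.eq_zero_iff_mem] at hw2 ⊢
    rw [← hw2, hw, map_pow, map_prod, map_prod, ← Finset.prod_pow]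
    refine Finset.prod_congr rfl fun P hPs => ?_
    have hPS := (hmem P).1 hPs
    rw [hz']
    simp only
    rw [← mk_sub_pow, map_sub, hf P hPS, ← pow_add, mk_dickson, mk_dickson, map_pow, ← pow_mul,
      ← pow_add]
  obtain ⟨y, hy⟩ := Ideal.mem_span_singleton.1 hdiv
  have hy2 : ∏ P ∈ s, zz P = p * algebraMap (𝓞 (TF β)) (TF β) y := by
    have h1 := congrArg (algebraMap (𝓞 (TF β)) (TF β)) hy
    rw [map_prod, map_mul, map_natCast] at h1
    rw [← h1]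
    exact Finset.prod_congr rfl fun P _ => (hcoe P).symm
  have hpk : 1 ≤ p ^ k := Nat.one_le_pow _ _ hp.pos
  have hNk : ∀ P ∈ s, p ^ k < Nat.card (𝓞 F ⧸ P) * p ^ k := by
    intro P hPs
    have hPS := (hmem P).1 hPs
    have h1 : 1 < Nat.card (𝓞 F ⧸ P) := by
      rw [hf P hPS]
      exact Nat.one_lt_pow (hf0 P hPS).ne' hp.one_lt
    nlinarith
  have hne : ∏ P ∈ s, zz P ≠ 0 := by
    rw [Finset.prod_ne_zero_iff]
    intro P hPs
    exact z_ne_zero hP.1 hP.2.1 hrec hone (τ P) (hNk P hPs)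
  have hlow := pow_le_prod (p := p) y.2 hy2 hne
  have hup : ∏ φ : TF β →ₐ[ℚ] ℂ, ‖φ (∏ P ∈ s, zz P)‖ ≤
      ∏ P ∈ s, ((U β (Nat.card (𝓞 F ⧸ P) * p ^ k) + 2) * (U β (p ^ k) + 2) / 16 * 4 ^ n) := by
    have h1 : ∏ φ : TF β →ₐ[ℚ] ℂ, ‖φ (∏ P ∈ s, zz P)‖ =
        ∏ P ∈ s, ∏ φ : TF β →ₐ[ℚ] ℂ, ‖φ (zz P)‖ := by
      rw [Finset.prod_comm]
      refine Finset.prod_congr rfl fun φ _ => ?_
      rw [map_prod, norm_prod]
    rw [h1]
    refine Finset.prod_le_prod (fun P _ => Finset.prod_nonneg fun φ _ => norm_nonneg _) ?_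
    intro P hPs
    exact prod_bound hP.1 hP.2.1 hrec hone (τ P) (by have := hNk P hPs; omega) hpk
  have hC : Cost β F p k n = ∏ P ∈ s,
      ((U β (Nat.card (𝓞 F ⧸ P) * p ^ k) + 2) * (U β (p ^ k) + 2) / 16 * 4 ^ n) := by
    rw [Cost, finprod_mem_eq_finite_toFinset_prod _ hfin]
  rw [hC] at hb
  linarith

end Pool.Agent.W738.SAL
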