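import Mathlib
import Pool.Agent.W738.SAL.M

/-!
# Trace fields abelian over an arbitrary subfield: the condition
-/

set_option autoImplicit false

open Polynomial NumberField

namespace Pool.Agent.W738.SAL

/-- `K` is abelian over a subfield `F`, the ramification indices of `p` in `K` are at most `p ^ k`,
and `Cost β F p k [K : ℚ] < p ^ [K : ℚ]` -/
def RelAbelian (K : Type) [Field K] [CharZero K] (β : ℝ) (p k : ℕ) : Prop :=
  ∃ F : Subfield K, Abelian F K ∧ RamLe K p (p ^ k) ∧
    Cost β F p k (Module.finrank ℚ K) < (p : ℝ) ^ (Module.finrank ℚ K)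

theorem main6 {β : ℝ} (hP : IsPerron β) (hrec : IsReciprocal β) {p : ℕ} (hp : p.Prime) {k : ℕ}
    (h : RelAbelian (TF β) β p k) : (ParryPowers β).Finite := by
  obtain ⟨F, hab, hk, hb⟩ := h
  exact main5 hP hrec hp F hab hk hb

end Pool.Agent.W738.SAL
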