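import Mathlib
import Pool.Agent.W738.SAL.N

/-!
# Galois extensions with small conjugacy classes
-/

set_option autoImplicit false

open Polynomial NumberField

namespace Pool.Agent.W738.SAL

/-- the Frobenius elements of the primes above `P` -/
theorem frob_class {F L : Type*} [Field F] [NumberField F] [Field L] [NumberField L] [Algebra F L]
    [IsGalois F L] {c : ℕ} (hc : ∀ σ : L ≃ₐ[F] L, (conjugatesOf σ).ncard ≤ c) (P : Ideal (𝓞 F))
    (hP0 : P ≠ ⊥) [P.IsPrime] :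
    ∃ S : Finset (L ≃ₐ[F] L), S.card ≤ c ∧ ∀ Q : Ideal (𝓞 L), Q.IsPrime → Q.under (𝓞 F) = P →
      ∃ σ ∈ S, ∀ x : 𝓞 L, x ^ (Nat.card (𝓞 F ⧸ P)) - σ • x ∈ Q := by
  classical
  have : Finite (L ≃ₐ[F] L) := inferInstance
  obtain ⟨Q₀⟩ : Nonempty (Ideal.primesOver P (𝓞 L)) := inferInstance
  have hfin : ∀ Q : Ideal.primesOver P (𝓞 L), Finite (𝓞 L ⧸ Q.1) := by
    intro Q
    apply Ideal.finiteQuotientOfFreeOfNeBot
    intro h4
    apply hP0
    have h2 := Q.2.2.over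
    rw [h2, h4]
    exact Ideal.comap_bot_of_injective _ (FaithfulSMul.algebraMap_injective (𝓞 F) (𝓞 L))
  obtain ⟨s, hs1, hs2⟩ := IsArithFrobAt.exists_primesOver_isConj (R := 𝓞 F) (𝓞 L) (L ≃ₐ[F] L)
    P ⟨Q₀, hfin Q₀⟩
  have hfc : (conjugatesOf (s Q₀)).Finite := Set.toFinite _
  refine ⟨hfc.toFinset, ?_, ?_⟩
  · rw [← Set.ncard_eq_toFinset_card _ hfc]
    exact hc _
  · intro J hJ2 hunder
    refine ⟨s ⟨J, hJ2, ⟨hunder.symm⟩⟩, ?_, fun x => ?_⟩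
    · rw [Set.Finite.mem_toFinset]
      exact hs2 _ _
    · have h1 := hs1 ⟨J, hJ2, ⟨hunder.symm⟩⟩ x
      have h3 : s ⟨J, hJ2, ⟨hunder.symm⟩⟩ • x - x ^ (Nat.card (𝓞 F ⧸ P)) ∈ J := by
        have h5 : Nat.card (𝓞 F ⧸ J.under (𝓞 F)) = Nat.card (𝓞 F ⧸ P) := by rw [hunder]
        rw [← h5]; exact h1
      rw [← neg_sub]
      exact J.neg_mem h3

theorem main7 {β : ℝ} (hP : IsPerron β) (hrec : IsReciprocal β) {p : ℕ} (hp : p.Prime) {k c : ℕ}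
    (F : Subfield (TF β)) [hG : IsGalois F (TF β)]
    (hc : ∀ σ : TF β ≃ₐ[F] TF β, (conjugatesOf σ).ncard ≤ c) (hk : RamLe (TF β) p (p ^ k))
    (hb : Cost β F p k (Module.finrank ℚ (TF β)) ^ c < (p : ℝ) ^ (Module.finrank ℚ (TF β))) :
    (ParryPowers β).Finite := by
  classical
  have : Fact p.Prime := ⟨hp⟩
  have hfd := tf_finite hP hrec
  have : NumberField (TF β) := ⟨⟩
  have hfd2 : FiniteDimensional ℚ F :=
    FiniteDimensional.of_injective (F.subtype.toRatAlgHom.toLinearMap) F.subtype.injective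
  have : NumberField F := ⟨⟩
  by_contra hinf
  have hone : ∀ z : ℂ, aeval z (minpoly ℤ β) = 0 → z ≠ (β : ℂ) → ‖z‖ ≤ 1 :=
    fun z hz hne => one_of_inf hP hinf hz hne
  set n := Module.finrank ℚ (TF β) with hn
  have hfin := primesAbove_finite F hp
  set s : Finset (Ideal (𝓞 F)) := hfin.toFinset with hs
  have hmem : ∀ P, P ∈ s ↔ P ∈ primesAbove F p := fun P => hfin.mem_toFinset
  have hfrob : ∀ P ∈ primesAbove F p, ∃ S : Finset (TF β ≃ₐ[F] TF β), S.card ≤ c ∧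
      ∀ Q : Ideal (𝓞 (TF β)), Q.IsPrime → Q.under (𝓞 F) = P →
      ∃ σ ∈ S, ∀ x : 𝓞 (TF β), x ^ (Nat.card (𝓞 F ⧸ P)) - σ • x ∈ Q := by
    rintro P ⟨h1, h2⟩
    have := h1
    apply frob_class hc P
    rintro rfl
    have : (p : 𝓞 F) = 0 := by simpa using h2
    exact hp.ne_zero (by exact_mod_cast this)
  have hcard : ∀ P ∈ primesAbove F p, ∃ f : ℕ, 0 < f ∧ Nat.card (𝓞 F ⧸ P) = p ^ f :=
    fun P hP => card_quot P hP.1 hP.2
  choose! S hSc hσ using hfrob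
  choose! f hf0 hf using hcard
  -- the automorphisms over `ℚ`
  set τ : (TF β ≃ₐ[F] TF β) → (TF β ≃ₐ[ℚ] TF β) := fun σ =>
    AlgEquiv.ofRingEquiv (f := σ.toRingEquiv) (fun q => by simp) with hτ
  set T : 𝓞 (TF β) := ⟨tt β, tt_integral hP hrec⟩ with hT
  set zz : Ideal (𝓞 F) → (TF β ≃ₐ[F] TF β) → TF β := fun P σ =>
    aeval (tt β) (dickson 1 (1 : ℤ) (Nat.card (𝓞 F ⧸ P) * p ^ k)) -
      aeval (τ σ (tt β)) (dickson 1 (1 : ℤ) (p ^ k)) with hzz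
  set z' : Ideal (𝓞 F) → (TF β ≃ₐ[F] TF β) → 𝓞 (TF β) := fun P σ =>
    aeval T (dickson 1 (1 : ℤ) (Nat.card (𝓞 F ⧸ P) * p ^ k)) -
      aeval (σ • T) (dickson 1 (1 : ℤ) (p ^ k)) with hz'
  have hcoe : ∀ P σ, algebraMap (𝓞 (TF β)) (TF β) (z' P σ) = zz P σ := by
    intro P σ
    rw [hz', hzz]
    simp only [map_sub]
    rw [← aeval_algebraMap_apply, ← aeval_algebraMap_apply]
    rfl
  -- divisibility
  have hdiv : (∏ P ∈ s, ∏ σ ∈ S P, z' P σ) ∈ Ideal.span {(p : 𝓞 (TF β))} := by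
    set w : 𝓞 (TF β) := ∏ P ∈ s, ∏ σ ∈ S P, (T ^ (Nat.card (𝓞 F ⧸ P)) - σ • T) with hw
    have hw1 : w ∈ (Ideal.span {(p : 𝓞 (TF β))}).radical := by
      rw [Ideal.radical_eq_sInf, Ideal.mem_sInf]
      rintro J ⟨hJ1, hJ2⟩
      have hJp : (p : 𝓞 (TF β)) ∈ J := hJ1 (Ideal.subset_span rfl)
      have hS : J.under (𝓞 F) ∈ primesAbove F p := by
        refine ⟨?_, ?_⟩
        · have := hJ2
          exact Ideal.IsPrime.under (𝓞 F) J
        · rw [Ideal.under_def, Ideal.mem_comap]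
          simpa using hJp
      rw [hw, ← Finset.mul_prod_erase s _ ((hmem _).2 hS)]
      apply J.mul_mem_right
      obtain ⟨σ, hσS, hσ2⟩ := hσ _ hS J hJ2 rfl
      rw [← Finset.mul_prod_erase _ _ hσS]
      exact J.mul_mem_right _ (hσ2 T)
    have hw2 : w ^ (p ^ k) ∈ Ideal.span {(p : 𝓞 (TF β))} := hk (Ideal.pow_mem_pow hw1 _)
    rw [← Ideal.Quotient.eq_zero_iff_mem] at hw2 ⊢
    rw [← hw2, hw, map_pow, map_prod, map_prod, ← Finset.prod_pow]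
    refine Finset.prod_congr rfl fun P hPs => ?_
    rw [map_prod, map_prod, ← Finset.prod_pow]
    refine Finset.prod_congr rfl fun σ _ => ?_
    have hPS := (hmem P).1 hPs
    rw [hz']
    simp only
    rw [← mk_sub_pow, map_sub, hf P hPS, ← pow_add, mk_dickson, mk_dickson, map_pow, ← pow_mul,
      ← pow_add]
  obtain ⟨y, hy⟩ := Ideal.mem_span_singleton.1 hdiv
  have hy2 : ∏ P ∈ s, ∏ σ ∈ S P, zz P σ = p * algebraMap (𝓞 (TF β)) (TF β) y := by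
    have h1 := congrArg (algebraMap (𝓞 (TF β)) (TF β)) hy
    rw [map_prod, map_mul, map_natCast] at h1
    rw [← h1]
    refine Finset.prod_congr rfl fun P _ => ?_
    rw [map_prod]
    exact Finset.prod_congr rfl fun σ _ => (hcoe P σ).symm
  have hpk : 1 ≤ p ^ k := Nat.one_le_pow _ _ hp.pos
  have hNk : ∀ P ∈ s, p ^ k < Nat.card (𝓞 F ⧸ P) * p ^ k := by
    intro P hPs
    have hPS := (hmem P).1 hPs
    have h1 : 1 < Nat.card (𝓞 F ⧸ P) := by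
      rw [hf P hPS]
      exact Nat.one_lt_pow (hf0 P hPS).ne' hp.one_lt
    nlinarith
  have hne : ∏ P ∈ s, ∏ σ ∈ S P, zz P σ ≠ 0 := by
    rw [Finset.prod_ne_zero_iff]
    intro P hPs
    rw [Finset.prod_ne_zero_iff]
    intro σ _
    exact z_ne_zero hP.1 hP.2.1 hrec hone (τ σ) (hNk P hPs)
  have hlow := pow_le_prod (p := p) y.2 hy2 hne
  set B : Ideal (𝓞 F) → ℝ := fun P =>
    (U β (Nat.card (𝓞 F ⧸ P) * p ^ k) + 2) * (U β (p ^ k) + 2) / 16 * 4 ^ n with hB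
  have hB1 : ∀ P, 1 ≤ B P := by
    intro P
    have h0 : 0 < β := by linarith [hP.1]
    have h1 := U_two_le h0 (Nat.card (𝓞 F ⧸ P) * p ^ k)
    have h2 := U_two_le h0 (p ^ k)
    have h3 : (1:ℝ) ≤ 4 ^ n := one_le_pow₀ (by norm_num)
    have h4 : (1:ℝ) ≤ (U β (Nat.card (𝓞 F ⧸ P) * p ^ k) + 2) * (U β (p ^ k) + 2) / 16 := by
      nlinarith
    rw [hB]
    exact one_le_mul_of_one_le_of_one_le h4 h3
  have hup : ∏ φ : TF β →ₐ[ℚ] ℂ, ‖φ (∏ P ∈ s, ∏ σ ∈ S P, zz P σ)‖ ≤ ∏ P ∈ s, (B P) ^ c := by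
    have h1 : ∏ φ : TF β →ₐ[ℚ] ℂ, ‖φ (∏ P ∈ s, ∏ σ ∈ S P, zz P σ)‖ =
        ∏ P ∈ s, ∏ σ ∈ S P, ∏ φ : TF β →ₐ[ℚ] ℂ, ‖φ (zz P σ)‖ := by
      have h2 : ∀ P ∈ s, ∏ σ ∈ S P, ∏ φ : TF β →ₐ[ℚ] ℂ, ‖φ (zz P σ)‖ =
          ∏ φ : TF β →ₐ[ℚ] ℂ, ∏ σ ∈ S P, ‖φ (zz P σ)‖ := fun P _ => Finset.prod_comm
      rw [Finset.prod_congr rfl h2, Finset.prod_comm]
      refine Finset.prod_congr rfl fun φ _ => ?_
      rw [map_prod, norm_prod]
      refine Finset.prod_congr rfl fun P _ => ?_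
      rw [map_prod, norm_prod]
    rw [h1]
    refine Finset.prod_le_prod (fun P _ => Finset.prod_nonneg fun σ _ =>
      Finset.prod_nonneg fun φ _ => norm_nonneg _) ?_
    intro P hPs
    calc ∏ σ ∈ S P, ∏ φ : TF β →ₐ[ℚ] ℂ, ‖φ (zz P σ)‖ ≤ ∏ _σ ∈ S P, B P := by
          refine Finset.prod_le_prod (fun σ _ => Finset.prod_nonneg fun φ _ => norm_nonneg _) ?_
          intro σ _
          exact prod_bound hP.1 hP.2.1 hrec hone (τ σ) (by have := hNk P hPs; omega) hpk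
      _ = (B P) ^ (S P).card := by rw [Finset.prod_const]
      _ ≤ (B P) ^ c := pow_le_pow_right₀ (hB1 P) (hSc P ((hmem P).1 hPs))
  have hC : Cost β F p k n = ∏ P ∈ s, B P := by
    rw [Cost, finprod_mem_eq_finite_toFinset_prod _ hfin]
  rw [hC, ← Finset.prod_pow] at hb
  linarith

/-- `K` is Galois over a subfield `F`, all conjugacy classes of the Galois group have at most `c`
elements, the ramification indices of `p` in `K` are at most `p ^ k`, and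
`(Cost β F p k [K : ℚ]) ^ c < p ^ [K : ℚ]` -/
def RelGalois (K : Type) [Field K] [CharZero K] (β : ℝ) (p k c : ℕ) : Prop :=
  ∃ F : Subfield K, IsGalois F K ∧ (∀ σ : K ≃ₐ[F] K, (conjugatesOf σ).ncard ≤ c) ∧
    RamLe K p (p ^ k) ∧
    Cost β F p k (Module.finrank ℚ K) ^ c < (p : ℝ) ^ (Module.finrank ℚ K)

theorem main8 {β : ℝ} (hP : IsPerron β) (hrec : IsReciprocal β) {p : ℕ} (hp : p.Prime) {k c : ℕ}
    (h : RelGalois (TF β) β p k c) : (ParryPowers β).Finite := by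
  obtain ⟨F, hG, hc, hk, hb⟩ := h
  exact main7 hP hrec hp F hc hk hb

end Pool.Agent.W738.SAL
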