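import Mathlib
import Pool.Agent.W738.SAL.E

/-!
# Congruences in larger fields
-/

set_option autoImplicit false

open Polynomial NumberField

namespace Pool.Agent.W738.SAL

lemma tf_finite' {β : ℝ} (hint : IsIntegral ℤ β) (hrec : aeval β⁻¹ (minpoly ℤ β) = 0) :
    FiniteDimensional ℚ (TF β) := by
  have hrecint : IsIntegral ℤ β⁻¹ := ⟨minpoly ℤ β, minpoly.monic hint, by
    rw [← aeval_def]; exact hrec⟩
  have htR : IsIntegral ℤ (β + β⁻¹) := hint.add hrecint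
  exact IntermediateField.adjoin.finiteDimensional htR.tower_top

/-- the conjugates of `β + β⁻¹` -/
lemma conj_t {β : ℝ} (hβ : 1 < β) (hint : IsIntegral ℤ β) (hrec : aeval β⁻¹ (minpoly ℤ β) = 0)
    (hone : ∀ z : ℂ, aeval z (minpoly ℤ β) = 0 → z ≠ (β : ℂ) → ‖z‖ ≤ 1)
    {r : ℂ} (hr : aeval r (minpoly ℚ (β + β⁻¹)) = 0) :
    r = (β : ℂ) + (β : ℂ)⁻¹ ∨ ∃ w : ℂ, w ≠ 0 ∧ ‖w‖ = 1 ∧ r = w + w⁻¹ := by
  have hfd := tf_finite' hint hrec
  have hmin : minpoly ℚ (tt β) = minpoly ℚ (β + β⁻¹) :=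
    (minpoly.algebraMap_eq (B' := ℝ) (algebraMap (TF β) ℝ).injective (tt β)).symm
  obtain ⟨φ, hφ⟩ := IntermediateField.exists_algHom_of_splits_of_aeval (F := ℚ) (E := TF β)
    (K := ℂ) (x := tt β) (y := r)
    (fun s => ⟨Algebra.IsIntegral.isIntegral s, IsAlgClosed.splits _⟩)
    (by rw [hmin]; exact hr)
  by_cases h : φ = φ₀ β
  · left
    rw [← hφ, h, φ₀_tt]
  · right
    obtain ⟨w, h0, h1, h2⟩ := other hβ hint hrec hone h
    exact ⟨w, h0, h1, by rw [← hφ, h2]⟩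

/-- `D_m(x)` -/
noncomputable def DD {L : Type*} [Field L] (x : L) (m : ℕ) : L := aeval x (dickson 1 (1 : ℤ) m)

section

variable {L : Type*} [Field L] [NumberField L]

lemma map_DD {M : Type*} [Field M] [NumberField M] (σ : L →ₐ[ℚ] M) (x : L) (m : ℕ) :
    σ (DD x m) = DD (σ x) m :=
  (aeval_algHom_apply (σ.restrictScalars ℤ) x _).symm

variable {β : ℝ} (hβ : 1 < β) (hint : IsIntegral ℤ β)
    (hrec : aeval β⁻¹ (minpoly ℤ β) = 0)
    (hone : ∀ z : ℂ, aeval z (minpoly ℤ β) = 0 → z ≠ (β : ℂ) → ‖z‖ ≤ 1)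
    {x : L} (hx : minpoly ℚ x = minpoly ℚ (β + β⁻¹))

include hβ in
lemma φ_special {φ : L →ₐ[ℚ] ℂ} (h : φ x = (β : ℂ) + (β : ℂ)⁻¹) (m : ℕ) :
    φ (DD x m) = (U β m : ℂ) := by
  have hβ0 : (β : ℂ) ≠ 0 := by exact_mod_cast (show β ≠ 0 by linarith)
  rw [DD, φ_dickson φ _ m (w := (β : ℂ)) hβ0 h, U]
  push_cast
  rfl

include hβ hint hrec hone hx in
lemma φ_dich (φ : L →ₐ[ℚ] ℂ) : φ x = (β : ℂ) + (β : ℂ)⁻¹ ∨ ∀ m, ‖φ (DD x m)‖ ≤ 2 := by
  have h1 : aeval (φ x) (minpoly ℚ (β + β⁻¹)) = 0 := by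
    rw [← hx, aeval_algHom_apply, minpoly.aeval, map_zero]
  rcases conj_t hβ hint hrec hone h1 with h | ⟨w, h0, h1, h2⟩
  · exact Or.inl h
  · right
    intro m
    rw [DD, φ_dickson φ _ m h0 h2]
    refine (norm_add_le _ _).trans ?_
    rw [norm_pow, norm_pow, norm_inv, h1]
    norm_num

include hx in
lemma exists_special : ∃ φ : L →ₐ[ℚ] ℂ, φ x = (β : ℂ) + (β : ℂ)⁻¹ := by
  apply IntermediateField.exists_algHom_of_splits_of_aeval
  · exact fun s => ⟨Algebra.IsIntegral.isIntegral s, IsAlgClosed.splits _⟩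
  · rw [hx]
    have h1 := aeval_algebraMap_apply ℂ (β + β⁻¹) (minpoly ℚ (β + β⁻¹))
    rw [minpoly.aeval, map_zero] at h1
    rw [← h1]
    congr 1
    simp

end

lemma contra {L : Type*} [Field L] [NumberField L] {p : ℕ} {z y : L} (hy : IsIntegral ℤ y)
    (hz : z = p * y) (h0 : z ≠ 0) (hb : ∀ φ : L →ₐ[ℚ] ℂ, ‖φ z‖ < p) : False := by
  have h1 := pow_le_prod hy hz h0
  have h2 : ∏ φ : L →ₐ[ℚ] ℂ, ‖φ z‖ < ∏ _φ : L →ₐ[ℚ] ℂ, (p : ℝ) := by
    apply Finset.prod_lt_prod_of_nonempty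
    · intro φ _
      exact norm_pos_iff.2 ((map_ne_zero φ).2 h0)
    · intro φ _
      exact hb φ
    · exact Finset.univ_nonempty_iff.2 ⟨IsAlgClosed.lift⟩
  rw [Finset.prod_const, Finset.card_univ, AlgHom.card ℚ L ℂ] at h2
  linarith

end Pool.Agent.W738.SAL
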