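import Mathlib
import Pool.Agent.W738.SAL.H

/-!
# The two congruences modulo seven
-/

set_option autoImplicit false

open Polynomial NumberField

namespace Pool.Agent.W738.SAL

section

variable {L : Type*} [Field L] [NumberField L]
variable {β : ℝ} (hβ : 1 < β) (hβ' : β ≤ 5 / 4) (hint : IsIntegral ℤ β)
    (hrec : aeval β⁻¹ (minpoly ℤ β) = 0)
    (hone : ∀ z : ℂ, aeval z (minpoly ℤ β) = 0 → z ≠ (β : ℂ) → ‖z‖ ≤ 1)
    {x : L} (hx : minpoly ℚ x = minpoly ℚ (β + β⁻¹)) (hxi : IsIntegral ℤ x)

lemma minpoly_σ (σ : L ≃ₐ[ℚ] L) : minpoly ℚ (σ x) = minpoly ℚ x :=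
  minpoly.algEquiv_eq σ x

include hβ hβ' in
lemma U7 : U β 7 < 5 := by
  have h1 := U_mono hβ hβ' 7
  have h2 : U (5 / 4) 7 < 5 := by
    unfold U
    norm_num
  linarith

include hβ hβ' in
lemma U1 : U β 1 < 5 := by
  have h1 := U_lt hβ (show 1 < 7 by norm_num)
  have h2 := U7 hβ hβ'
  linarith

include hβ hβ' hint hrec hone hx hxi in
theorem caseA {σ : L ≃ₐ[ℚ] L} {y : L} (hy : IsIntegral ℤ y) (h : x ^ 7 - σ x = 7 * y) :
    False := by
  have : Fact (Nat.Prime 7) := ⟨by norm_num⟩
  obtain ⟨y1, hy1, h1⟩ := dickson_aeval 7 1 hxi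
  have hσx : minpoly ℚ (σ x) = minpoly ℚ (β + β⁻¹) := (minpoly_σ σ).trans hx
  set z : L := DD x 7 - DD (σ x) 1 with hz
  have hD1 : DD (σ x) 1 = σ x := by simp [DD, dickson_one]
  have hz1 : z = ((7 : ℕ) : L) * (y1 + y) := by
    have h2 : DD x 7 = x ^ 7 + 7 * y1 := by
      have := h1
      rw [pow_one] at this
      exact_mod_cast this
    rw [hz, h2, hD1]
    push_cast
    linear_combination h
  have hU7 := U7 hβ hβ'
  have hU1 := U1 hβ hβ'
  have hU17 := U_lt hβ (show 1 < 7 by norm_num)
  have h2U7 := U_two_lt hβ (show 1 ≤ 7 by norm_num)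
  have h2U1 := U_two_lt hβ (show 1 ≤ 1 by norm_num)
  refine contra (p := 7) (hy1.add hy) hz1 ?_ ?_
  · intro h0
    obtain ⟨φ, hφ⟩ := exists_special hx
    have h3 : φ (DD x 7) = φ (DD (σ x) 1) := by
      rw [← sub_eq_zero, ← map_sub, ← hz, h0, map_zero]
    rw [φ_special hβ hφ] at h3
    rcases φ_dich hβ hint hrec hone hσx φ with h4 | h4
    · rw [φ_special hβ h4] at h3
      have : U β 7 = U β 1 := by exact_mod_cast h3
      linarith
    · have h5 := h4 1
      rw [← h3, Complex.norm_real, Real.norm_eq_abs] at h5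
      have := le_abs_self (U β 7)
      linarith
  · intro φ
    rw [hz, map_sub]
    rcases φ_dich hβ hint hrec hone hx φ with h3 | h3
    · rcases φ_dich hβ hint hrec hone hσx φ with h4 | h4
      · rw [φ_special hβ h3, φ_special hβ h4, ← Complex.ofReal_sub, Complex.norm_real,
          Real.norm_eq_abs, abs_of_pos (by linarith)]
        push_cast
        linarith
      · refine (norm_sub_le _ _).trans_lt ?_
        rw [φ_special hβ h3, Complex.norm_real, Real.norm_eq_abs, abs_of_pos (by linarith)]
        have := h4 1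
        push_cast
        linarith
    · rcases φ_dich hβ hint hrec hone hσx φ with h4 | h4
      · refine (norm_sub_le _ _).trans_lt ?_
        rw [φ_special hβ h4, Complex.norm_real, Real.norm_eq_abs, abs_of_pos (by linarith)]
        have := h3 7
        push_cast
        linarith
      · refine (norm_sub_le _ _).trans_lt ?_
        have := h3 7
        have := h4 1
        push_cast
        linarith

include hβ hβ' hint hrec hone hx hxi in
theorem caseB {σ : L ≃ₐ[ℚ] L} (hσ : σ x ≠ x) {y : L} (hy : IsIntegral ℤ y)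
    (h : x ^ 7 - (σ x) ^ 7 = 7 * y) : False := by
  have : Fact (Nat.Prime 7) := ⟨by norm_num⟩
  have hσi : IsIntegral ℤ (σ x) := hxi.map (σ.toAlgHom.restrictScalars ℤ)
  obtain ⟨y1, hy1, h1⟩ := dickson_aeval 7 1 hxi
  obtain ⟨y2, hy2, h2⟩ := dickson_aeval 7 1 hσi
  have hσx : minpoly ℚ (σ x) = minpoly ℚ (β + β⁻¹) := (minpoly_σ σ).trans hx
  set z : L := DD x 7 - DD (σ x) 7 with hz
  have hz1 : z = ((7 : ℕ) : L) * (y1 + y - y2) := by
    have h3 : DD x 7 = x ^ 7 + 7 * y1 := by
      have := h1
      rw [pow_one] at this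
      exact_mod_cast this
    have h4 : DD (σ x) 7 = (σ x) ^ 7 + 7 * y2 := by
      have := h2
      rw [pow_one] at this
      exact_mod_cast this
    rw [hz, h3, h4]
    push_cast
    linear_combination h
  have hU7 := U7 hβ hβ'
  have h2U7 := U_two_lt hβ (show 1 ≤ 7 by norm_num)
  refine contra (p := 7) ((hy1.add hy).sub hy2) hz1 ?_ ?_
  · intro h0
    obtain ⟨φ, hφ⟩ := exists_special hx
    have h3 : φ (DD x 7) = φ (DD (σ x) 7) := by
      rw [← sub_eq_zero, ← map_sub, ← hz, h0, map_zero]
    rw [φ_special hβ hφ] at h3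
    rcases φ_dich hβ hint hrec hone hσx φ with h4 | h4
    · exact hσ (φ.injective (h4.trans hφ.symm))
    · have h5 := h4 7
      rw [← h3, Complex.norm_real, Real.norm_eq_abs] at h5
      have := le_abs_self (U β 7)
      linarith
  · intro φ
    rw [hz, map_sub]
    rcases φ_dich hβ hint hrec hone hx φ with h3 | h3
    · rcases φ_dich hβ hint hrec hone hσx φ with h4 | h4
      · rw [φ_special hβ h3, φ_special hβ h4, sub_self, norm_zero]
        norm_num
      · refine (norm_sub_le _ _).trans_lt ?_
        rw [φ_special hβ h3, Complex.norm_real, Real.norm_eq_abs, abs_of_pos (by linarith)]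
        have := h4 7
        push_cast
        linarith
    · rcases φ_dich hβ hint hrec hone hσx φ with h4 | h4
      · refine (norm_sub_le _ _).trans_lt ?_
        rw [φ_special hβ h4, Complex.norm_real, Real.norm_eq_abs, abs_of_pos (by linarith)]
        have := h3 7
        push_cast
        linarith
      · refine (norm_sub_le _ _).trans_lt ?_
        have := h3 7
        have := h4 7
        push_cast
        linarith

end

end Pool.Agent.W738.SAL
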