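import Mathlib
import Pool.Agent.W738.SAL.I

/-!
# Cyclotomic trace fields
-/

set_option autoImplicit false

open Polynomial NumberField IsCyclotomicExtension

namespace Pool.Agent.W738.SAL

lemma frob_poly (p : ℕ) [Fact p.Prime] (f : ℤ[X]) :
    ∃ g : ℤ[X], f ^ p = expand ℤ p f + C (p : ℤ) * g := by
  have h1 : (f ^ p - expand ℤ p f).map (Int.castRingHom (ZMod p)) = 0 := by
    rw [Polynomial.map_sub, Polynomial.map_pow, map_expand, ZMod.expand_card, sub_self]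
  have h2 : C (p : ℤ) ∣ f ^ p - expand ℤ p f := by
    rw [C_dvd_iff_dvd_coeff]
    intro n
    have h3 := congrArg (fun f => f.coeff n) h1
    simp only [coeff_map, coeff_zero] at h3
    exact (ZMod.intCast_zmod_eq_zero_iff_dvd _ p).1 h3
  obtain ⟨Q, hQ⟩ := h2
  exact ⟨Q, by rw [← hQ]; ring⟩

lemma exists_poly {L : Type} [Field L] [NumberField L] {N : ℕ} [NeZero N]
    [IsCyclotomicExtension {N} ℚ L] {x : L} (hx : IsIntegral ℤ x) :
    ∃ f : ℤ[X], x = aeval (zeta N ℚ L) f := by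
  have hζ := zeta_spec N ℚ L
  have h1 := IsCyclotomicExtension.Rat.isIntegralClosure_adjoin_singleton hζ
  obtain ⟨y, hy⟩ := h1.isIntegral_iff.1 hx
  have h2 : x ∈ Algebra.adjoin ℤ {zeta N ℚ L} := by rw [← hy]; exact y.2
  rw [Algebra.adjoin_singleton_eq_range_aeval] at h2
  obtain ⟨f, hf⟩ := h2
  exact ⟨f, hf.symm⟩

lemma pow_seven {L : Type} [Field L] [NumberField L] (ζ : L) (hζ : IsIntegral ℤ ζ) (f : ℤ[X]) :
    ∃ y : L, IsIntegral ℤ y ∧ (aeval ζ f) ^ 7 = aeval (ζ ^ 7) f + 7 * y := by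
  have : Fact (Nat.Prime 7) := ⟨by norm_num⟩
  obtain ⟨g, hg⟩ := frob_poly 7 f
  refine ⟨aeval ζ g, ?_, ?_⟩
  · exact IsIntegral.of_mem_of_fg (Algebra.adjoin ℤ {ζ}) hζ.fg_adjoin_singleton _
      (aeval_mem_adjoin_singleton _ _)
  · rw [← map_pow, hg, map_add, map_mul, aeval_C, expand_aeval]
    simp

theorem cyc {β : ℝ} (hβ : 1 < β) (hβ' : β ≤ 5 / 4) (hint : IsIntegral ℤ β)
    (hrec : aeval β⁻¹ (minpoly ℤ β) = 0)
    (hone : ∀ z : ℂ, aeval z (minpoly ℤ β) = 0 → z ≠ (β : ℂ) → ‖z‖ ≤ 1) :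
    ∀ (N : ℕ) [NeZero N] (L : Type) [Field L] [NumberField L] [IsCyclotomicExtension {N} ℚ L]
      (x : L), minpoly ℚ x ≠ minpoly ℚ (β + β⁻¹) := by
  intro N
  induction N using Nat.strong_induction_on with
  | _ N ih =>
  intro _ L _ _ _ x hx
  have hrecint : IsIntegral ℤ β⁻¹ := ⟨minpoly ℤ β, minpoly.monic hint, by
    rw [← aeval_def]; exact hrec⟩
  have htR : IsIntegral ℤ (β + β⁻¹) := hint.add hrecint
  have hxi : IsIntegral ℤ x := by
    refine ⟨minpoly ℤ (β + β⁻¹), minpoly.monic htR, ?_⟩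
    have h1 : aeval x (minpoly ℚ (β + β⁻¹)) = 0 := by rw [← hx, minpoly.aeval]
    rw [minpoly.isIntegrallyClosed_eq_field_fractions' ℚ htR, aeval_map_algebraMap] at h1
    rw [← aeval_def]
    exact h1
  have hζ := zeta_spec N ℚ L
  have hζi : IsIntegral ℤ (zeta N ℚ L) := hζ.isIntegral (NeZero.pos N)
  obtain ⟨f, hf⟩ := exists_poly (N := N) hxi
  obtain ⟨y, hy, h7⟩ := pow_seven (zeta N ℚ L) hζi f
  rw [← hf] at h7
  have haev : ∀ (σ : L ≃ₐ[ℚ] L) (a : L), σ (aeval a f) = aeval (σ a) f := fun σ a =>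
    (aeval_algHom_apply (σ.toAlgHom.restrictScalars ℤ) a f).symm
  by_cases hN : 7 ∣ N
  · obtain ⟨M, rfl⟩ := hN
    have hM : M ≠ 0 := by
      rintro rfl
      exact (NeZero.ne (7 * 0)) rfl
    have : NeZero M := ⟨hM⟩
    by_cases h : ∃ σ : L ≃ₐ[ℚ] L, σ (zeta (7 * M) ℚ L ^ 7) = zeta (7 * M) ℚ L ^ 7 ∧ σ x ≠ x
    · obtain ⟨σ, hσ1, hσ2⟩ := h
      refine caseB hβ hβ' hint hrec hone hx hxi hσ2 (y := y - σ y)
        (hy.sub (hy.map (σ.toAlgHom.restrictScalars ℤ))) ?_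
      have h8 : (σ x) ^ 7 = aeval (zeta (7 * M) ℚ L ^ 7) f + 7 * σ y := by
        rw [← map_pow, h7, map_add, haev, hσ1, map_mul, map_ofNat]
      rw [h7, h8]
      ring
    · push Not at h
      have hGal : IsGalois ℚ L := IsCyclotomicExtension.isGalois {7 * M} ℚ L
      have hprim : IsPrimitiveRoot (zeta (7 * M) ℚ L ^ 7) M :=
        hζ.pow (NeZero.pos _) rfl
      have hcyc : IsCyclotomicExtension {M} ℚ
          (IntermediateField.adjoin ℚ {zeta (7 * M) ℚ L ^ 7}) :=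
        hprim.intermediateField_adjoin_isCyclotomicExtension ℚ
      have hmem : x ∈ IntermediateField.adjoin ℚ {zeta (7 * M) ℚ L ^ 7} := by
        rw [← IsGalois.fixedField_fixingSubgroup
          (IntermediateField.adjoin ℚ {zeta (7 * M) ℚ L ^ 7}), IntermediateField.mem_fixedField_iff]
        intro σ hσ
        apply h
        rw [IntermediateField.mem_fixingSubgroup_iff] at hσ
        exact hσ _ (IntermediateField.mem_adjoin_simple_self ℚ _)
      refine ih M (by have := Nat.pos_of_ne_zero hM; omega)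
        (IntermediateField.adjoin ℚ {zeta (7 * M) ℚ L ^ 7}) ⟨x, hmem⟩ ?_
      rw [← hx]
      exact (minpoly.algebraMap_eq (A := ℚ)
        (B := IntermediateField.adjoin ℚ {zeta (7 * M) ℚ L ^ 7}) (B' := L)
        (algebraMap (IntermediateField.adjoin ℚ {zeta (7 * M) ℚ L ^ 7}) L).injective ⟨x, hmem⟩).symm
  · have hcop : Nat.Coprime 7 N := (Nat.Prime.coprime_iff_not_dvd (by norm_num)).2 hN
    have hirr : Irreducible (cyclotomic N ℚ) := cyclotomic.irreducible_rat (NeZero.pos N)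
    have hμ : IsPrimitiveRoot (zeta N ℚ L ^ 7) N := hζ.pow_of_coprime 7 hcop
    have hσ := fromZetaAut_spec hμ hirr
    set σ := fromZetaAut hμ hirr with hσdef
    refine caseA hβ hβ' hint hrec hone hx hxi (σ := σ) hy ?_
    have h8 : σ x = aeval (zeta N ℚ L ^ 7) f := by
      rw [hf, haev, hσ]
    rw [h7, h8]
    ring

end Pool.Agent.W738.SAL
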